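import Pool.Agent.U530.PB.Tub
import Pool.Agent.Y254.EL.Dual3
set_option autoImplicit false

/-! From averages of the maximal functions of sets to the tube inequality. -/

open MeasureTheory Set Metric
open scoped ENNReal NNReal

namespace Pool.Agent.U530.PB

open Pool.Agent.Y254 (mult mult_meas mult_le mult_ne_top lint_mult Cv Cv_pos)
open Pool.Agent.Y254.EL (sg cap_lower int_le_kmax triv_bound card_dirs EuF)
open Pool.Agent.W46.HM (kmax)
open Pool.Agent.W46.KK (tube_isClosed)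

variable {d : ℕ}

/-- The averaged estimate for the maximal functions of sets, with the factor `C δ^(-γ)`. -/
def AvgS (d : ℕ) (γ C : ℝ) : Prop := ∀ δ : ℝ, 0 < δ → δ < 1 →
  ∀ A : Set (EuclideanSpace ℝ (Fin (d + 1))), MeasurableSet A → volume A ≠ ∞ →
    ∫⁻ e, kmax δ (A.indicator 1) (e : EuclideanSpace ℝ (Fin (d + 1))) ∂(sg d) ≤
      ENNReal.ofReal (C * δ ^ (-γ)) * volume A ^ (1 / ((d : ℝ) + 1))

/-- Sums over tubes with separated directions and averages of the maximal function. -/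
theorem sum_le_avg (d : ℕ) : ∃ V : ℝ, 0 < V ∧ ∀ δ : ℝ, 0 < δ → δ ≤ 1 / 5 →
    ∀ (ι : Type) [Fintype ι] (a e : ι → EuclideanSpace ℝ (Fin (d + 1))), (∀ i, ‖e i‖ = 1) →
    (∀ i j, i ≠ j → δ ≤ ‖e i - e j‖) → ∀ g : EuclideanSpace ℝ (Fin (d + 1)) → ℝ≥0∞,
    ∑ i, ∫⁻ y in W46.KK.tube δ (a i) (e i), g y ≤
      ENNReal.ofReal V * ∫⁻ x, kmax (2 * δ) g (x : EuclideanSpace ℝ (Fin (d + 1))) ∂(sg d) := by
  classical
  have hCv := Cv_pos (d + 1)
  obtain ⟨κ, hκ, hcl⟩ := cap_lower d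
  set V0 : ℝ := 2 * (Cv (d + 1) * 2 * 2 ^ d) with hV0
  have hV00 : 0 < V0 := by positivity
  refine ⟨V0 * (4 ^ d / κ), by positivity, ?_⟩
  intro δ hδ hδ5 ι _ a e he hsep g
  set T : ι → Set (EuclideanSpace ℝ (Fin (d + 1))) := fun i => W46.KK.tube δ (a i) (e i) with hT
  set c : ι → Set (sphere (0 : EuclideanSpace ℝ (Fin (d + 1))) 1) := fun i =>
    closedBall ⟨e i, by rw [mem_sphere_zero_iff_norm]; exact he i⟩ (δ / 4) with hc
  have hcm : ∀ i, MeasurableSet (c i) := fun i => isClosed_closedBall.measurableSet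
  have hcdist : ∀ i, ∀ x ∈ c i, ‖e i - (x : EuclideanSpace ℝ (Fin (d + 1)))‖ ≤ δ / 4 := by
    intro i x hx
    rw [hc, mem_closedBall, Subtype.dist_eq, dist_eq_norm, norm_sub_rev] at hx
    exact hx
  have hdis : ((Finset.univ : Finset ι) : Set ι).PairwiseDisjoint c := by
    intro i _ j _ hij
    rw [Function.onFun, Set.disjoint_left]
    intro x hxi hxj
    have h1 := hcdist i x hxi
    have h2 := hcdist j x hxj
    have h3 := hsep i j hij
    have h4 : e i - e j = (e i - x) - (e j - x) := by abel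
    rw [h4] at h3
    have := norm_sub_le (e i - (x : EuclideanSpace ℝ (Fin (d + 1)))) (e j - x)
    linarith
  have hstep : ∀ i, ENNReal.ofReal (κ * (δ / 4) ^ d) * ∫⁻ y in T i, g y ≤
      ENNReal.ofReal (V0 * δ ^ d) * ∫⁻ x in c i, kmax (2 * δ) g x ∂(sg d) := by
    intro i
    calc ENNReal.ofReal (κ * (δ / 4) ^ d) * ∫⁻ y in T i, g y
        ≤ sg d (c i) * ∫⁻ y in T i, g y := by
          gcongr
          exact hcl _ _ (by positivity) (by linarith)
      _ = ∫⁻ _x in c i, (∫⁻ y in T i, g y) ∂(sg d) := by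
          rw [setLIntegral_const, mul_comm]
      _ ≤ ∫⁻ x in c i, ENNReal.ofReal (V0 * δ ^ d) * kmax (2 * δ) g x ∂(sg d) := by
          apply setLIntegral_mono' (hcm i)
          intro x hx
          have h1 := int_le_kmax hδ hδ5 (a i) (e := (x : EuclideanSpace ℝ (Fin (d + 1))))
            (e' := e i) (by simp) (hcdist i x hx) g
          refine h1.trans (le_of_eq ?_)
          congr 2
          rw [hV0, mul_pow]
          ring
      _ = _ := by
          rw [lintegral_const_mul' _ _ ENNReal.ofReal_ne_top]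
  have htot : ENNReal.ofReal (κ * (δ / 4) ^ d) * ∑ i, ∫⁻ y in T i, g y ≤
      ENNReal.ofReal (V0 * δ ^ d) * ∫⁻ x, kmax (2 * δ) g x ∂(sg d) := by
    calc ENNReal.ofReal (κ * (δ / 4) ^ d) * ∑ i, ∫⁻ y in T i, g y
        ≤ ENNReal.ofReal (V0 * δ ^ d) * ∫⁻ x in ⋃ i ∈ (Finset.univ : Finset ι), c i,
            kmax (2 * δ) g x ∂(sg d) := by
          rw [lintegral_biUnion_finset hdis fun i _ => hcm i, Finset.mul_sum, Finset.mul_sum]
          exact Finset.sum_le_sum fun i _ => hstep i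
      _ ≤ _ := by
          gcongr
          exact Measure.restrict_le_self
  have hinv : ENNReal.ofReal (4 ^ d / (κ * δ ^ d)) * ENNReal.ofReal (κ * (δ / 4) ^ d) = 1 := by
    rw [← ENNReal.ofReal_mul (by positivity)]
    have : 4 ^ d / (κ * δ ^ d) * (κ * (δ / 4) ^ d) = 1 := by
      rw [div_pow]
      field_simp
    rw [this, ENNReal.ofReal_one]
  calc ∑ i, ∫⁻ y in T i, g y
      = ENNReal.ofReal (4 ^ d / (κ * δ ^ d)) * (ENNReal.ofReal (κ * (δ / 4) ^ d) *
          ∑ i, ∫⁻ y in T i, g y) := by rw [← mul_assoc, hinv, one_mul]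
    _ ≤ ENNReal.ofReal (4 ^ d / (κ * δ ^ d)) * (ENNReal.ofReal (V0 * δ ^ d) *
          ∫⁻ x, kmax (2 * δ) g x ∂(sg d)) := by gcongr
    _ = _ := by
        rw [← mul_assoc, ← ENNReal.ofReal_mul (by positivity)]
        congr 2
        field_simp

theorem mult_nat {X ι : Type} [Fintype ι] (T : ι → Set X) (x : X) :
    ∃ k : ℕ, k ≤ Fintype.card ι ∧ mult T x = (k : ℝ≥0∞) := by
  classical
  refine ⟨(Finset.univ.filter fun i => x ∈ T i).card, ?_, ?_⟩
  · rw [← Finset.card_univ]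
    exact Finset.card_filter_le _ _
  · unfold mult
    have e : ∀ i, (T i).indicator (1 : X → ℝ≥0∞) x = if x ∈ T i then (1 : ℝ≥0∞) else 0 := by
      intro i
      rw [indicator_apply]
      rfl
    rw [Finset.sum_congr rfl (fun i _ => e i), Finset.sum_boole]

/-- The level sets. -/
theorem level (hd : 1 ≤ d) {A v : ℝ} (hA : 0 ≤ A) (hv : 0 ≤ v) {k : ℕ}
    (h : 2 ^ k * v ≤ A * v ^ (1 / ((d : ℝ) + 1))) :
    (2 ^ (k + 1) : ℝ) ^ (1 + 1 / (d : ℝ)) * v ≤ 2 ^ (1 + 1 / (d : ℝ)) * A ^ (1 + 1 / (d : ℝ)) := by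
  have hd0 : (0 : ℝ) < d := by exact_mod_cast hd
  rcases hv.eq_or_lt with h0 | h0
  · rw [← h0, mul_zero]
    positivity
  have e1 : v = v ^ ((d : ℝ) / (d + 1)) * v ^ (1 / ((d : ℝ) + 1)) := by
    rw [← Real.rpow_add h0]
    have : (d : ℝ) / (d + 1) + 1 / (d + 1) = 1 := by field_simp
    rw [this, Real.rpow_one]
  have h1 : 2 ^ k * v ^ ((d : ℝ) / (d + 1)) ≤ A := by
    have h2 : 0 < v ^ (1 / ((d : ℝ) + 1)) := Real.rpow_pos_of_pos h0 _
    rw [← mul_le_mul_iff_left₀ h2]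
    calc 2 ^ k * v ^ ((d : ℝ) / (d + 1)) * v ^ (1 / ((d : ℝ) + 1))
        = 2 ^ k * (v ^ ((d : ℝ) / (d + 1)) * v ^ (1 / ((d : ℝ) + 1))) := by ring
      _ = 2 ^ k * v := by rw [← e1]
      _ ≤ _ := h
  have h3 : (2 ^ k * v ^ ((d : ℝ) / (d + 1))) ^ (1 + 1 / (d : ℝ)) ≤ A ^ (1 + 1 / (d : ℝ)) := by
    gcongr
  have e2 : (2 ^ k * v ^ ((d : ℝ) / (d + 1))) ^ (1 + 1 / (d : ℝ)) =
      (2 ^ k : ℝ) ^ (1 + 1 / (d : ℝ)) * v := by
    rw [Real.mul_rpow (by positivity) (by positivity), ← Real.rpow_mul hv]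
    have : (d : ℝ) / (d + 1) * (1 + 1 / d) = 1 := by field_simp
    rw [this, Real.rpow_one]
  rw [e2] at h3
  calc (2 ^ (k + 1) : ℝ) ^ (1 + 1 / (d : ℝ)) * v
      = 2 ^ (1 + 1 / (d : ℝ)) * ((2 ^ k : ℝ) ^ (1 + 1 / (d : ℝ)) * v) := by
        rw [pow_succ, mul_comm ((2 : ℝ) ^ k) 2, Real.mul_rpow (by norm_num) (by positivity)]
        ring
    _ ≤ _ := by gcongr

/-- The bound for small `δ`. -/
theorem avg_small (hd : 1 ≤ d) {γ C : ℝ} (hγ : 0 ≤ γ) (hC : 0 ≤ C) (h : AvgS d γ C) :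
    ∃ B : ℝ, 0 ≤ B ∧ ∀ δ : ℝ, 0 < δ → δ ≤ 1 / 5 → ∀ (ι : Type) [Fintype ι]
    (a e : ι → EuclideanSpace ℝ (Fin (d + 1))), (∀ i, ‖e i‖ = 1) →
    (∀ i j, i ≠ j → δ ≤ ‖e i - e j‖) →
    ∫⁻ x, mult (fun i => W46.KK.tube δ (a i) (e i)) x ^ (1 + 1 / (d : ℝ)) ≤
      ENNReal.ofReal (((Nat.log 2 (Fintype.card ι) + 1 : ℕ) : ℝ) *
        (B * δ ^ (-(γ * (1 + 1 / (d : ℝ)))))) := by
  classical
  have hd0 : (0 : ℝ) < d := by exact_mod_cast hd
  have hq0 : 0 < 1 + 1 / (d : ℝ) := by positivity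
  obtain ⟨V, hV, hsum⟩ := sum_le_avg d
  set q : ℝ := 1 + 1 / (d : ℝ) with hq
  refine ⟨2 ^ q * (V * C) ^ q, by positivity, ?_⟩
  intro δ hδ hδ5 ι _ a e he hsep
  have hδ1 : δ < 1 := by linarith
  set T : ι → Set (EuclideanSpace ℝ (Fin (d + 1))) := fun i => W46.KK.tube δ (a i) (e i) with hT
  have hTm : ∀ i, MeasurableSet (T i) := fun i => (tube_isClosed _ _ _).measurableSet
  have hmm := mult_meas hTm
  set K : ℕ := Nat.log 2 (Fintype.card ι) + 1 with hK
  set L : ℕ → Set (EuclideanSpace ℝ (Fin (d + 1))) := fun k =>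
    {x | (2 : ℝ≥0∞) ^ k ≤ mult T x ∧ mult T x < 2 ^ (k + 1)} with hL
  have hLm : ∀ k, MeasurableSet (L k) := fun k =>
    (measurableSet_le measurable_const hmm).inter (measurableSet_lt hmm measurable_const)
  have hfin : ∫⁻ x, mult T x ≠ ∞ := by
    have h1 := triv_bound (q := 1) le_rfl hδ hδ1 a e he
    simp only [ENNReal.rpow_one] at h1
    exact ne_top_of_le_ne_top ENNReal.ofReal_ne_top h1
  have hmark : ∀ k, (2 : ℝ≥0∞) ^ k * volume (L k) ≤ ∫⁻ x in L k, mult T x := by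
    intro k
    rw [← setLIntegral_const]
    exact setLIntegral_mono' (hLm k) fun x hx => hx.1
  have hvol : ∀ k, volume (L k) ≠ ∞ := by
    intro k hk
    have h1 := (hmark k).trans (setLIntegral_le_lintegral _ _)
    rw [hk, ENNReal.mul_top (by positivity)] at h1
    exact hfin (top_le_iff.1 h1)
  have hA : ∀ k, ∫⁻ x in L k, mult T x ≤
      ENNReal.ofReal (V * C * δ ^ (-γ)) * volume (L k) ^ (1 / ((d : ℝ) + 1)) := by
    intro k
    have h1 : ∫⁻ x in L k, mult T x = ∑ i, ∫⁻ y in T i, (L k).indicator 1 y := by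
      rw [lint_mult _ hTm]
      refine Finset.sum_congr rfl fun i _ => ?_
      rw [Measure.restrict_apply (hTm i), lintegral_indicator_one (hLm k),
        Measure.restrict_apply (hLm k), inter_comm]
    rw [h1]
    refine (hsum δ hδ hδ5 ι a e he hsep _).trans ?_
    have h2 := h (2 * δ) (by positivity) (by linarith) (L k) (hLm k) (hvol k)
    have h3 : (2 * δ) ^ (-γ) ≤ δ ^ (-γ) :=
      Real.rpow_le_rpow_of_nonpos hδ (by linarith) (by linarith)
    calc ENNReal.ofReal V * ∫⁻ x, kmax (2 * δ) ((L k).indicator 1)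
          (x : EuclideanSpace ℝ (Fin (d + 1))) ∂(sg d)
        ≤ ENNReal.ofReal V * (ENNReal.ofReal (C * (2 * δ) ^ (-γ)) *
            volume (L k) ^ (1 / ((d : ℝ) + 1))) := by gcongr
      _ = ENNReal.ofReal (V * (C * (2 * δ) ^ (-γ))) * volume (L k) ^ (1 / ((d : ℝ) + 1)) := by
          rw [← mul_assoc, ← ENNReal.ofReal_mul hV.le]
      _ ≤ _ := by
          gcongr ENNReal.ofReal ?_ * _
          calc V * (C * (2 * δ) ^ (-γ)) ≤ V * (C * δ ^ (-γ)) := by gcongr
            _ = V * C * δ ^ (-γ) := by ring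
  have hlev : ∀ k, ∫⁻ x in L k, mult T x ^ q ≤
      ENNReal.ofReal (2 ^ q * (V * C) ^ q * δ ^ (-(γ * q))) := by
    intro k
    set v : ℝ := (volume (L k)).toReal with hv
    have hvv : volume (L k) = ENNReal.ofReal v := (ENNReal.ofReal_toReal (hvol k)).symm
    have hv0 : 0 ≤ v := ENNReal.toReal_nonneg
    have h2k : (2 : ℝ≥0∞) ^ k = ENNReal.ofReal (2 ^ k) := by
      rw [ENNReal.ofReal_pow (by norm_num), ENNReal.ofReal_ofNat]
    have h2k' : (2 : ℝ≥0∞) ^ (k + 1) = ENNReal.ofReal (2 ^ (k + 1)) := by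
      rw [ENNReal.ofReal_pow (by norm_num), ENNReal.ofReal_ofNat]
    have h1 := (hmark k).trans (hA k)
    rw [hvv, h2k, ← ENNReal.ofReal_mul (by positivity),
      ENNReal.ofReal_rpow_of_nonneg hv0 (by positivity), ← ENNReal.ofReal_mul (by positivity),
      ENNReal.ofReal_le_ofReal_iff (by positivity)] at h1
    have h2 := level hd (by positivity) hv0 h1
    rw [← hq] at h2
    calc ∫⁻ x in L k, mult T x ^ q ≤ ∫⁻ _x in L k, ENNReal.ofReal ((2 ^ (k + 1) : ℝ) ^ q) := by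
          refine setLIntegral_mono' (hLm k) fun x hx => ?_
          rw [← ENNReal.ofReal_rpow_of_nonneg (by positivity) hq0.le, ← h2k']
          exact ENNReal.rpow_le_rpow hx.2.le hq0.le
      _ = ENNReal.ofReal ((2 ^ (k + 1) : ℝ) ^ q * v) := by
          rw [setLIntegral_const, hvv, ← ENNReal.ofReal_mul (by positivity)]
      _ ≤ _ := by
          apply ENNReal.ofReal_le_ofReal
          refine h2.trans (le_of_eq ?_)
          rw [Real.mul_rpow (by positivity) (by positivity), ← Real.rpow_mul hδ.le]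
          rw [show -γ * q = -(γ * q) by ring]
          ring
  have hpt : ∀ x, mult T x ^ q ≤ ∑ k ∈ Finset.range K, (L k).indicator (fun y => mult T y ^ q) x := by
    intro x
    obtain ⟨j, hj, hjx⟩ := mult_nat T x
    rcases Nat.eq_zero_or_pos j with h0 | h0
    · rw [hjx, h0, Nat.cast_zero, ENNReal.zero_rpow_of_pos hq0]
      exact zero_le
    · have hk : Nat.log 2 j ∈ Finset.range K := by
        rw [Finset.mem_range, hK]
        exact Nat.lt_succ_of_le (Nat.log_mono_right hj)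
      have hx : x ∈ L (Nat.log 2 j) := by
        rw [hL]
        refine ⟨?_, ?_⟩
        · rw [hjx]
          exact_mod_cast Nat.pow_log_le_self 2 (by omega)
        · rw [hjx]
          exact_mod_cast Nat.lt_pow_succ_log_self (by norm_num) j
      calc mult T x ^ q = (L (Nat.log 2 j)).indicator (fun y => mult T y ^ q) x := by
            rw [indicator_of_mem hx]
        _ ≤ _ := Finset.single_le_sum
            (f := fun k => (L k).indicator (fun y => mult T y ^ q) x) (fun _ _ => zero_le) hk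
  calc ∫⁻ x, mult T x ^ q
      ≤ ∫⁻ x, ∑ k ∈ Finset.range K, (L k).indicator (fun y => mult T y ^ q) x := lintegral_mono hpt
    _ = ∑ k ∈ Finset.range K, ∫⁻ x in L k, mult T x ^ q := by
        rw [lintegral_finsetSum _ fun k _ => (hmm.pow_const q).indicator (hLm k)]
        refine Finset.sum_congr rfl fun k _ => ?_
        rw [lintegral_indicator (hLm k)]
    _ ≤ ∑ _k ∈ Finset.range K, ENNReal.ofReal (2 ^ q * (V * C) ^ q * δ ^ (-(γ * q))) :=
        Finset.sum_le_sum fun k _ => hlev k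
    _ = _ := by
        rw [Finset.sum_const, Finset.card_range, nsmul_eq_mul, ← ENNReal.ofReal_natCast,
          ← ENNReal.ofReal_mul (by positivity)]

/-- One averaged estimate implies the loss-free tube inequality. -/
theorem euF_of_avg (hd : 2 ≤ d) {q' γ C : ℝ} (hγ : 0 ≤ γ) (hC : 0 ≤ C) (h : AvgS d γ C)
    (hq' : (1 + 1 / (d : ℝ)) + 7 * ((d : ℝ) + 1) * (γ * (1 + 1 / (d : ℝ))) < q') :
    ∃ C : ℝ, 0 < C ∧ EuF d q' C := by
  have hd0 : (0 : ℝ) < d := by exact_mod_cast (by omega : 0 < d)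
  have hCv := Cv_pos (d + 1)
  obtain ⟨B, hB, hs⟩ := avg_small (by omega) hγ hC h
  set q : ℝ := 1 + 1 / (d : ℝ) with hq
  have hq0 : 0 < q := by positivity
  set τ : ℝ := (q' - q - 7 * ((d : ℝ) + 1) * (γ * q)) / (14 * ((d : ℝ) + 1)) with hτ
  have hτ0 : 0 < τ := div_pos (by linarith) (by positivity)
  have hτq : q + 7 * ((d : ℝ) + 1) * ((γ * q + τ) + (d * (q - 1) - 1)) < q' := by
    have e1 : (d : ℝ) * (q - 1) - 1 = 0 := by rw [hq]; field_simp; ring
    have e2 : 7 * ((d : ℝ) + 1) * ((γ * q + τ) + 0) =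
        7 * ((d : ℝ) + 1) * (γ * q) + (q' - q - 7 * ((d : ℝ) + 1) * (γ * q)) / 2 := by
      rw [hτ]
      field_simp
      ring
    rw [e1, e2]
    linarith
  set s : ℝ := τ / ((d : ℝ) + 1) with hs'
  have hs0 : 0 < s := by positivity
  set W : ℝ := (4 * ((d : ℝ) + 1)) ^ (d + 1) with hW
  have hW0 : 0 < W := by positivity
  set D : ℝ := 1 + W ^ s / s / Real.log 2 with hD
  have hlog2 : 0 < Real.log 2 := Real.log_pos (by norm_num)
  have hD0 : 0 < D := by positivity
  set K1 : ℝ := (20 * ((d : ℝ) + 1)) ^ (d + 1) with hK1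
  set B' : ℝ := D * B + K1 ^ (q - 1) * (K1 * (Cv (d + 1) * 2)) with hB'
  have hB'0 : 0 ≤ B' := by positivity
  set κ : ℝ := (1 / (20 * ((d : ℝ) + 1))) ^ d with hκ
  have hκ0 : 0 < κ := by positivity
  refine euF_of_full hd le_rfl (by positivity : 0 ≤ γ * q + τ) (C := B' / κ) (by positivity) ?_ hτq
  intro δ hδ hδ1 ι _ a e he hsep hfull
  rw [← hκ] at hfull
  have hNat : (0 : ℝ) ≤ Fintype.card ι := Nat.cast_nonneg _
  have hcard := card_dirs hδ hδ1 e he hsep
  have hcW : (Fintype.card ι : ℝ) ≤ W * δ ^ (-((d : ℝ) + 1)) := by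
    refine hcard.trans (le_of_eq ?_)
    rw [div_pow, ← hW, Real.rpow_neg hδ.le, div_eq_mul_inv]
    congr 2
    rw [← Real.rpow_natCast]
    push_cast
    rfl
  have hδε : 1 ≤ δ ^ (-(γ * q)) := Real.one_le_rpow_of_pos_of_le_one_of_nonpos hδ hδ1.le (by
    have : 0 ≤ γ * q := by positivity
    linarith)
  have hδτ : 1 ≤ δ ^ (-τ) := Real.one_le_rpow_of_pos_of_le_one_of_nonpos hδ hδ1.le (by linarith)
  have hadd : δ ^ (-(γ * q + τ)) = δ ^ (-(γ * q)) * δ ^ (-τ) := by
    rw [← Real.rpow_add hδ]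
    congr 1
    ring
  -- the uniform bound
  have huni : ∫⁻ x, mult (fun i => W46.KK.tube δ (a i) (e i)) x ^ q ≤
      ENNReal.ofReal (B' * δ ^ (-(γ * q + τ))) := by
    rcases le_or_gt δ (1 / 5) with h5 | h5
    · refine (hs δ hδ h5 ι a e he hsep).trans (ENNReal.ofReal_le_ofReal ?_)
      have hK : ((Nat.log 2 (Fintype.card ι) + 1 : ℕ) : ℝ) ≤ D * δ ^ (-τ) := by
        have h1 : ((Nat.log 2 (Fintype.card ι) : ℕ) : ℝ) ≤
            Real.log (Fintype.card ι : ℝ) / Real.log 2 := by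
          have := Real.natLog_le_logb (Fintype.card ι) 2
          rw [Real.logb] at this
          exact_mod_cast this
        have h2 : Real.log (Fintype.card ι : ℝ) ≤ (Fintype.card ι : ℝ) ^ s / s :=
          Real.log_le_rpow_div hNat hs0
        have h3 : (Fintype.card ι : ℝ) ^ s ≤ W ^ s * δ ^ (-τ) := by
          calc (Fintype.card ι : ℝ) ^ s ≤ (W * δ ^ (-((d : ℝ) + 1))) ^ s := by gcongr
            _ = W ^ s * δ ^ (-τ) := by
                rw [Real.mul_rpow hW0.le (by positivity), ← Real.rpow_mul hδ.le]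
                congr 2
                rw [hs']
                field_simp
        push_cast
        calc ((Nat.log 2 (Fintype.card ι) : ℕ) : ℝ) + 1
            ≤ (W ^ s * δ ^ (-τ)) / s / Real.log 2 + 1 * δ ^ (-τ) := by
              have h4 : Real.log (Fintype.card ι : ℝ) / Real.log 2 ≤
                  (W ^ s * δ ^ (-τ)) / s / Real.log 2 := by
                gcongr
                exact h2.trans (by gcongr)
              linarith
          _ = D * δ ^ (-τ) := by rw [hD]; ring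
      rw [hadd]
      calc ((Nat.log 2 (Fintype.card ι) + 1 : ℕ) : ℝ) * (B * δ ^ (-(γ * q)))
          ≤ (D * δ ^ (-τ)) * (B * δ ^ (-(γ * q))) := by gcongr
        _ = D * B * (δ ^ (-(γ * q)) * δ ^ (-τ)) := by ring
        _ ≤ B' * (δ ^ (-(γ * q)) * δ ^ (-τ)) := by
            gcongr
            rw [hB']
            have : 0 ≤ K1 ^ (q - 1) * (K1 * (Cv (d + 1) * 2)) := by positivity
            linarith
    · have hq1 : 1 ≤ q := by
        rw [hq]
        have : 0 < 1 / (d : ℝ) := by positivity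
        linarith
      refine (triv_bound (q := q) hq1 hδ hδ1 a e he).trans (ENNReal.ofReal_le_ofReal ?_)
      have hcK : (Fintype.card ι : ℝ) ≤ K1 := by
        refine hcard.trans ?_
        rw [hK1]
        gcongr
        rw [div_le_iff₀ hδ]
        nlinarith
      have hδd : δ ^ d ≤ 1 := pow_le_one₀ hδ.le hδ1.le
      have hone : 1 ≤ δ ^ (-(γ * q + τ)) := by
        rw [hadd]
        calc (1 : ℝ) = 1 * 1 := by ring
          _ ≤ _ := by gcongr
      calc (Fintype.card ι : ℝ) ^ (q - 1) *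
            ((Fintype.card ι : ℝ) * (Cv (d + 1) * 2 * δ ^ d))
          ≤ K1 ^ (q - 1) * (K1 * (Cv (d + 1) * 2 * 1)) := by
            have : 0 ≤ q - 1 := by linarith
            gcongr
        _ ≤ B' := by
            rw [hB', mul_one]
            have : 0 ≤ D * B := by positivity
            linarith
        _ = B' * 1 := by ring
        _ ≤ _ := by gcongr
  refine huni.trans (ENNReal.ofReal_le_ofReal ?_)
  have e5 : q - 1 / (d : ℝ) = 1 := by rw [hq]; ring
  rw [e5, Real.rpow_one]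
  calc B' * δ ^ (-(γ * q + τ)) = B' / κ * (δ ^ (-(γ * q + τ)) * κ) := by field_simp
    _ ≤ B' / κ * (δ ^ (-(γ * q + τ)) * (δ ^ d * (Fintype.card ι : ℝ))) := by gcongr

end Pool.Agent.U530.PB
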