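import Pool.Agent.U530.PB.Rep2
import Pool.Agent.U530.KX.Quant
set_option autoImplicit false

/-! From full families of Euclidean tubes to all families of slope tubes. -/

open MeasureTheory Set Metric
open scoped ENNReal NNReal

namespace Pool.Agent.U530.PB

open Pool.Agent.Y254 (mult mult_meas)
open Pool.Agent.Y254.EL (Pt tb Sep LoB LF EuF allwP_of_LF wv wv_zero wv_succ wv_ge norm_le_coord dir
  dir_norm grid_pt card_ball)
open Pool.Agent.W46.KK (tube eqvj eqvj_mp eqvj_symm near_axis tube_isClosed)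
open Pool.Agent.U530.KX (loss_removal_quant)

variable {d : ℕ}

theorem wv_le4 {v : Fin d → ℝ} (hv : ‖v‖ ≤ 4) : ‖wv v‖ ≤ 4 * ((d : ℝ) + 1) := by
  have h : ∀ j, |wv v j| ≤ 4 := by
    rw [Fin.forall_iff_succAbove (0 : Fin (d + 1))]
    refine ⟨by rw [wv_zero, abs_one]; norm_num, fun k => ?_⟩
    rw [wv_succ]
    have := norm_le_pi_norm v k
    rw [Real.norm_eq_abs] at this
    linarith
  have := norm_le_coord (by norm_num : (0 : ℝ) ≤ 4) h
  linarith

theorem dir_sep4 {v v' : Fin d → ℝ} (hv : ‖v‖ ≤ 4) (hv' : ‖v'‖ ≤ 4) :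
    ‖v - v'‖ ≤ 20 * ((d : ℝ) + 1) * ‖dir v - dir v'‖ := by
  have h1 := wv_ge v
  have h2 := wv_le4 hv
  have h0 : 0 < ‖wv v‖ := by linarith
  rw [pi_norm_le_iff_of_nonneg (by positivity)]
  intro k
  rw [Pi.sub_apply, Real.norm_eq_abs]
  have e1 : |dir v 0 - dir v' 0| ≤ ‖dir v - dir v'‖ := by
    have := PiLp.norm_apply_le (dir v - dir v') 0
    rwa [PiLp.sub_apply, Real.norm_eq_abs] at this
  have e2 : |dir v ((0 : Fin (d + 1)).succAbove k) - dir v' ((0 : Fin (d + 1)).succAbove k)| ≤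
      ‖dir v - dir v'‖ := by
    have := PiLp.norm_apply_le (dir v - dir v') ((0 : Fin (d + 1)).succAbove k)
    rwa [PiLp.sub_apply, Real.norm_eq_abs] at this
  have c1 : dir v 0 = ‖wv v‖⁻¹ := by
    rw [dir, PiLp.smul_apply, wv_zero, smul_eq_mul, mul_one]
  have c2 : dir v' 0 = ‖wv v'‖⁻¹ := by
    rw [dir, PiLp.smul_apply, wv_zero, smul_eq_mul, mul_one]
  have c3 : dir v ((0 : Fin (d + 1)).succAbove k) = ‖wv v‖⁻¹ * v k := by
    rw [dir, PiLp.smul_apply, wv_succ, smul_eq_mul]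
  have c4 : dir v' ((0 : Fin (d + 1)).succAbove k) = ‖wv v'‖⁻¹ * v' k := by
    rw [dir, PiLp.smul_apply, wv_succ, smul_eq_mul]
  rw [c1, c2] at e1
  rw [c3, c4] at e2
  have hvk : |v' k| ≤ 4 := by
    have := norm_le_pi_norm v' k
    rw [Real.norm_eq_abs] at this
    linarith
  have h3 : ‖wv v‖⁻¹ * |v k - v' k| ≤ 5 * ‖dir v - dir v'‖ := by
    have h4 : ‖wv v‖⁻¹ * (v k - v' k) = (‖wv v‖⁻¹ * v k - ‖wv v'‖⁻¹ * v' k) -
        v' k * (‖wv v‖⁻¹ - ‖wv v'‖⁻¹) := by ring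
    have h5 : ‖wv v‖⁻¹ * |v k - v' k| = |‖wv v‖⁻¹ * (v k - v' k)| := by
      rw [abs_mul, abs_of_pos (inv_pos.2 h0)]
    rw [h5, h4]
    refine (abs_sub _ _).trans ?_
    rw [abs_mul]
    have h6 : |v' k| * |‖wv v‖⁻¹ - ‖wv v'‖⁻¹| ≤ 4 * ‖dir v - dir v'‖ := by gcongr
    linarith
  rw [inv_mul_le_iff₀ h0] at h3
  refine h3.trans ?_
  have : 0 ≤ ‖dir v - dir v'‖ := norm_nonneg _
  nlinarith

/-- A small slope tube is contained in a Euclidean tube. -/
theorem small_sub4 {h δ : ℝ} (hδ : 0 < δ) (hδ1 : δ < 1) (hh : h = 1 / (40 * ((d : ℝ) + 1) ^ 2))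
    {b : ℝ} {P v : Fin d → ℝ} (hv : ‖v‖ ≤ 4) {z : Pt d} (h1 : |z.1 - b| ≤ h)
    (h2 : ∀ k, |z.2 k - P k - z.1 * v k| ≤ h * δ) :
    (eqvj d 0).symm z ∈ tube (δ * (1 / (20 * ((d : ℝ) + 1))))
      ((eqvj d 0).symm (b, P + b • v)) (dir v) := by
  have hD : (0 : ℝ) < (d : ℝ) + 1 := by positivity
  have hD1 : (1 : ℝ) ≤ (d : ℝ) + 1 := by
    have : (0 : ℝ) ≤ d := Nat.cast_nonneg _
    linarith
  have hh0 : 0 < h := by rw [hh]; positivity
  have hw1 := wv_ge v
  have hw2 := wv_le4 hv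
  have hDh : ((d : ℝ) + 1) * h ≤ 1 / 40 := by
    rw [hh]
    have : ((d : ℝ) + 1) * (1 / (40 * ((d : ℝ) + 1) ^ 2)) = 1 / (40 * ((d : ℝ) + 1)) := by
      field_simp
    rw [this]
    apply one_div_le_one_div_of_le (by norm_num)
    linarith
  refine near_axis _ _ _ (dir_norm v) ((z.1 - b) * ‖wv v‖) (((d : ℝ) + 1) * (h * δ)) ?_ ?_ ?_
  · rw [abs_mul, abs_norm]
    have e1 : |z.1 - b| * ‖wv v‖ ≤ h * (4 * ((d : ℝ) + 1)) := by gcongr
    have e2 : ((d : ℝ) + 1) * (h * δ) ≤ ((d : ℝ) + 1) * (h * 1) := by gcongr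
    linarith
  · rw [hh]
    have : ((d : ℝ) + 1) * (1 / (40 * ((d : ℝ) + 1) ^ 2) * δ) = δ * (1 / (40 * ((d : ℝ) + 1))) := by
      field_simp
    rw [this]
    gcongr
    norm_num
  · apply norm_le_coord (by positivity)
    obtain ⟨t, y⟩ := z
    rw [eqvj_symm, eqvj_symm, Fin.forall_iff_succAbove (0 : Fin (d + 1))]
    have hs : ((t - b) * ‖wv v‖) • dir v = (t - b) • wv v := by
      rw [dir, smul_smul, mul_assoc, mul_inv_cancel₀ (by linarith), mul_one]
    dsimp only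
    rw [hs]
    constructor
    · simp only [PiLp.sub_apply, PiLp.add_apply, PiLp.smul_apply, smul_eq_mul, wv_zero,
        PiLp.toLp_apply, Fin.insertNth_apply_same]
      have : t - (b + (t - b) * 1) = 0 := by ring
      rw [this, abs_zero]
      positivity
    · intro k
      simp only [PiLp.sub_apply, PiLp.add_apply, PiLp.smul_apply, smul_eq_mul, wv_succ,
        Fin.insertNth_apply_succAbove, Pi.add_apply, Pi.smul_apply]
      have : y k - (P k + b * v k + (t - b) * v k) = y k - P k - t * v k := by ring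
      rw [this]
      exact h2 k

/-- The inequality for full families of Euclidean tubes. -/
def FuL (d : ℕ) (q ε κ C : ℝ) : Prop := ∀ δ : ℝ, 0 < δ → δ < 1 → ∀ (ι : Type) [Fintype ι]
    (a e : ι → EuclideanSpace ℝ (Fin (d + 1))), (∀ i, ‖e i‖ = 1) →
    (∀ i j, i ≠ j → δ ≤ ‖e i - e j‖) → κ ≤ δ ^ d * (Fintype.card ι : ℝ) →
    ∫⁻ x, mult (fun i => tube δ (a i) (e i)) x ^ q ≤
      ENNReal.ofReal (C * (δ ^ (-ε) * (δ ^ d * (Fintype.card ι : ℝ) ^ (q - 1 / (d : ℝ)))))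

/-- Slopes which fill up the family. -/
noncomputable def fillS (d : ℕ) (δ : ℝ) {m : ℕ} (z : Fin d → Fin m) : Fin d → ℝ :=
  fun j => 3 + δ * ((z j : ℕ) : ℝ)

theorem full_slopes (hd : 1 ≤ d) {δ : ℝ} (hδ : 0 < δ) (hδ1 : δ < 1) {ι : Type} [Fintype ι]
    (v : ι → Fin d → ℝ) (hv : ∀ i, ‖v i‖ ≤ 2) (hs : Sep δ v) :
    ∃ (κ : Type) (_ : Fintype κ) (w : κ → Fin d → ℝ), (∀ x, ‖(Sum.elim v w) x‖ ≤ 4) ∧
      Sep δ (Sum.elim v w) ∧ 1 ≤ δ ^ d * (Fintype.card (ι ⊕ κ) : ℝ) ∧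
      (Fintype.card (ι ⊕ κ) : ℝ) ≤ (10 / δ) ^ d := by
  have h1δ : 1 < 1 / δ := by rw [lt_div_iff₀ hδ]; linarith
  set m : ℕ := ⌊1 / δ⌋₊ with hm
  have hmN : (m : ℝ) ≤ 1 / δ := Nat.floor_le (by positivity)
  have hmN' : 1 / δ ≤ (m : ℝ) + 1 := (Nat.lt_floor_add_one (1 / δ)).le
  have hδm : δ * m ≤ 1 := by
    calc δ * m ≤ δ * (1 / δ) := by gcongr
      _ = 1 := by field_simp
  have hw : ∀ z : Fin d → Fin (m + 1), ∀ j, 3 ≤ fillS d δ z j ∧ fillS d δ z j ≤ 4 := by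
    intro z j
    have h1 : ((z j : ℕ) : ℝ) ≤ m := by exact_mod_cast Nat.lt_succ_iff.1 (z j).2
    have h2 : δ * ((z j : ℕ) : ℝ) ≤ δ * m := by gcongr
    have h3 : 0 ≤ δ * ((z j : ℕ) : ℝ) := by positivity
    unfold fillS
    constructor <;> linarith
  have hnorm : ∀ x, ‖(Sum.elim v (fun z : Fin d → Fin (m + 1) => fillS d δ z)) x‖ ≤ 4 := by
    rintro (i | z)
    · exact (hv i).trans (by norm_num)
    · show ‖fillS d δ z‖ ≤ 4
      rw [pi_norm_le_iff_of_nonneg (by norm_num)]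
      intro j
      obtain ⟨h1, h2⟩ := hw z j
      rw [Real.norm_eq_abs, abs_of_nonneg (by linarith)]
      exact h2
  have hj0 : ∀ (i : ι) (z : Fin d → Fin (m + 1)), δ ≤ ‖v i - fillS d δ z‖ := by
    intro i z
    have h1 := norm_le_pi_norm (v i - fillS d δ z) ⟨0, hd⟩
    have h2 := (norm_le_pi_norm (v i) ⟨0, hd⟩).trans (hv i)
    have h3 := (hw z ⟨0, hd⟩).1
    rw [Real.norm_eq_abs] at h1 h2
    rw [Pi.sub_apply] at h1
    have h4 := (abs_le.1 h2).2
    have h5 : 1 ≤ |v i ⟨0, hd⟩ - fillS d δ z ⟨0, hd⟩| := by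
      rw [le_abs]
      right
      linarith
    linarith
  have hsep : Sep δ (Sum.elim v (fun z : Fin d → Fin (m + 1) => fillS d δ z)) := by
    rintro (i | z) (i' | z') hne
    · exact hs i i' (fun h => hne (by rw [h]))
    · exact hj0 i z'
    · show δ ≤ ‖fillS d δ z - v i'‖
      rw [norm_sub_rev]
      exact hj0 i' z
    · show δ ≤ ‖fillS d δ z - fillS d δ z'‖
      have hzz : z ≠ z' := fun h => hne (by rw [h])
      obtain ⟨j, hj⟩ := Function.ne_iff.1 hzz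
      have h1 := norm_le_pi_norm (fillS d δ z - fillS d δ z') j
      rw [Real.norm_eq_abs, Pi.sub_apply] at h1
      have h2 : fillS d δ z j - fillS d δ z' j = δ * (((z j : ℕ) : ℝ) - ((z' j : ℕ) : ℝ)) := by
        unfold fillS
        ring
      rw [h2, abs_mul, abs_of_pos hδ] at h1
      have h3 : (1 : ℝ) ≤ |((z j : ℕ) : ℝ) - ((z' j : ℕ) : ℝ)| := by
        have h4 : ((z j : ℕ) : ℤ) - ((z' j : ℕ) : ℤ) ≠ 0 := by
          intro h5
          apply hj
          apply Fin.ext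
          omega
        have h5 := Int.one_le_abs h4
        exact_mod_cast h5
      calc δ = δ * 1 := by ring
        _ ≤ δ * |((z j : ℕ) : ℝ) - ((z' j : ℕ) : ℝ)| := by gcongr
        _ ≤ _ := h1
  refine ⟨Fin d → Fin (m + 1), inferInstance, fun z => fillS d δ z, hnorm, hsep, ?_, ?_⟩
  · have h1 : ((m : ℝ) + 1) ^ d ≤ (Fintype.card (ι ⊕ (Fin d → Fin (m + 1))) : ℝ) := by
      rw [Fintype.card_sum, Fintype.card_fun, Fintype.card_fin, Fintype.card_fin]
      push_cast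
      have : (0 : ℝ) ≤ Fintype.card ι := Nat.cast_nonneg _
      linarith
    calc (1 : ℝ) = δ ^ d * (1 / δ) ^ d := by
          rw [← mul_pow]
          have : δ * (1 / δ) = 1 := by field_simp
          rw [this, one_pow]
      _ ≤ δ ^ d * ((m : ℝ) + 1) ^ d := by gcongr
      _ ≤ _ := by gcongr
  · have h1 := card_ball hδ (by norm_num : (0 : ℝ) ≤ 4) hsep 0 Finset.univ
      (fun x _ => by rw [sub_zero]; exact hnorm x)
    rw [Finset.card_univ] at h1
    refine h1.trans ?_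
    gcongr
    have : 2 * 4 / δ + 2 = (8 + 2 * δ) / δ := by field_simp; ring
    rw [this]
    gcongr
    linarith

/-- The uniform bound for all families of slope tubes. -/
theorem slopes_of_full (hd : 1 ≤ d) {q ε C : ℝ} (hq : 1 + 1 / (d : ℝ) ≤ q) (hC : 0 ≤ C)
    (h : FuL d q ε ((1 / (20 * ((d : ℝ) + 1))) ^ d) C) {R : ℝ} (hR : 1 ≤ R) :
    ∃ B : ℝ, 0 ≤ B ∧ ∀ δ : ℝ, 0 < δ → δ < 1 → ∀ (ι : Type) [Fintype ι] (b : ι → ℝ)
      (P v : ι → Fin d → ℝ), (∀ i, ‖v i‖ ≤ 2) → Sep δ v →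
      ∫⁻ x, mult (fun i => tb R (R * δ) (b i) (P i) (v i)) x ^ q ≤
        ENNReal.ofReal (B * δ ^ (-(ε + (d * (q - 1) - 1)))) := by
  classical
  have hd0 : (0 : ℝ) < d := by exact_mod_cast hd
  have hp0 : 0 < 1 / (d : ℝ) := by positivity
  have hq0 : 0 < q := by linarith
  have hq1 : 1 ≤ q := by linarith
  have hD : (0 : ℝ) < (d : ℝ) + 1 := by positivity
  set h0 : ℝ := 1 / (40 * ((d : ℝ) + 1) ^ 2) with hh0
  have hh0p : 0 < h0 := by positivity
  set c : ℝ := 1 / (20 * ((d : ℝ) + 1)) with hc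
  have hc0 : 0 < c := by positivity
  have hc1 : c < 1 := by
    rw [hc, div_lt_one (by positivity)]
    linarith
  set m : ℕ := ⌈R / h0⌉₊ with hm
  have hmR : R / h0 ≤ m := Nat.le_ceil _
  set G : Type := Fin (2 * m + 1) × (Fin d → Fin (2 * m + 1)) with hG
  set K : ℕ := Fintype.card G with hK
  refine ⟨(K : ℝ) ^ (q - 1) * (K * (C * (c ^ (-ε) * 10 ^ (d * (q - 1 / (d : ℝ)))))), by positivity, ?_⟩
  intro δ hδ hδ1 ι _ b P v hv hs
  obtain ⟨κ, _, w, hvw, hsw, hfull, hcard⟩ := full_slopes hd hδ hδ1 v hv hs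
  have hv4 : ∀ i, ‖v i‖ ≤ 4 := fun i => (hv i).trans (by norm_num)
  set T : ι → Set (Pt d) := fun i => tb R (R * δ) (b i) (P i) (v i) with hT
  set b' : G → ι → ℝ := fun g i => b i + h0 * ((g.1 : ℕ) - (m : ℝ)) with hb'
  set P' : G → ι → Fin d → ℝ := fun g i k => P i k + δ * (h0 * ((g.2 k : ℕ) - (m : ℝ))) with hP'
  set A : G → ι ⊕ κ → EuclideanSpace ℝ (Fin (d + 1)) := fun g =>
    Sum.elim (fun i => (eqvj d 0).symm (b' g i, P' g i + b' g i • v i)) (fun _ => 0) with hA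
  set U : G → ι ⊕ κ → Set (EuclideanSpace ℝ (Fin (d + 1))) := fun g x =>
    tube (δ * c) (A g x) (dir (Sum.elim v w x)) with hU
  have hUm : ∀ g x, MeasurableSet (U g x) := fun g x => (tube_isClosed _ _ _).measurableSet
  have hcov : ∀ i z, z ∈ T i → ∃ g, (eqvj d 0).symm z ∈ U g (Sum.inl i) := by
    intro i z hz
    obtain ⟨j, hj⟩ := grid_pt hh0p hz.1 hmR
    have h1 : ∀ k, ∃ l : Fin (2 * m + 1),
        |(z.2 k - P i k - z.1 * v i k) / δ - h0 * ((l : ℕ) - (m : ℝ))| ≤ h0 := by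
      intro k
      apply grid_pt hh0p _ hmR
      rw [abs_div, abs_of_pos hδ, div_le_iff₀ hδ]
      have h2 := (norm_le_pi_norm _ k).trans hz.2
      rw [Real.norm_eq_abs] at h2
      exact h2
    obtain ⟨l, hl⟩ : ∃ l : Fin d → Fin (2 * m + 1), ∀ k,
        |(z.2 k - P i k - z.1 * v i k) / δ - h0 * ((l k : ℕ) - (m : ℝ))| ≤ h0 :=
      ⟨fun k => Classical.choose (h1 k), fun k => Classical.choose_spec (h1 k)⟩
    refine ⟨(j, l), ?_⟩
    exact small_sub4 (b := b' (j, l) i) (P := P' (j, l) i) hδ hδ1 hh0 (hv4 i) (z := z) (by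
      rw [hb']
      dsimp only
      have : z.1 - (b i + h0 * ((j : ℕ) - (m : ℝ))) = z.1 - b i - h0 * ((j : ℕ) - (m : ℝ)) := by ring
      rw [this]
      exact hj) (by
      intro k
      have e1 : z.2 k - P' (j, l) i k - z.1 * v i k =
          ((z.2 k - P i k - z.1 * v i k) / δ - h0 * ((l k : ℕ) - (m : ℝ))) * δ := by
        rw [hP']
        dsimp only
        field_simp
        ring
      rw [e1, abs_mul, abs_of_pos hδ]
      exact mul_le_mul_of_nonneg_right (hl k) hδ.le)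
  have hpt : ∀ z, mult T z ≤ ∑ g : G, mult (U g) ((eqvj d 0).symm z) := by
    intro z
    have h1 : mult T z ≤ ∑ i, ∑ g : G, (U g (Sum.inl i)).indicator
        (1 : EuclideanSpace ℝ (Fin (d + 1)) → ℝ≥0∞) ((eqvj d 0).symm z) := by
      unfold mult
      apply Finset.sum_le_sum
      intro i _
      by_cases hz : z ∈ T i
      · obtain ⟨g, hg⟩ := hcov i z hz
        rw [indicator_of_mem hz]
        calc (1 : Pt d → ℝ≥0∞) z = (U g (Sum.inl i)).indicator 1 ((eqvj d 0).symm z) := by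
              rw [indicator_of_mem hg]; rfl
          _ ≤ _ := Finset.single_le_sum
              (f := fun g => (U g (Sum.inl i)).indicator
                (1 : EuclideanSpace ℝ (Fin (d + 1)) → ℝ≥0∞) ((eqvj d 0).symm z))
              (fun _ _ => zero_le) (Finset.mem_univ g)
      · rw [indicator_of_notMem hz]; exact zero_le
    refine h1.trans ?_
    rw [Finset.sum_comm]
    refine Finset.sum_le_sum fun g _ => ?_
    unfold mult
    rw [Fintype.sum_sum_type]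
    exact le_self_add
  have hmeas : ∀ g, Measurable fun z => mult (U g) ((eqvj d 0).symm z) ^ q := fun g =>
    ((mult_meas (hUm g)).comp (eqvj d 0).symm.measurable).pow_const _
  set M : ℝ := (Fintype.card (ι ⊕ κ) : ℝ) with hM
  have hint : ∀ g, ∫⁻ z, mult (U g) ((eqvj d 0).symm z) ^ q ≤ ENNReal.ofReal
      (C * ((δ * c) ^ (-ε) * ((δ * c) ^ d * M ^ (q - 1 / (d : ℝ))))) := by
    intro g
    have h2 : ∫⁻ z, mult (U g) ((eqvj d 0).symm z) ^ q = ∫⁻ x, mult (U g) x ^ q :=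
      ((eqvj_mp d 0).symm (eqvj d 0)).lintegral_comp_emb
        (eqvj d 0).symm.measurableEmbedding (fun x => mult (U g) x ^ q)
    rw [h2]
    refine h (δ * c) (by positivity) (by nlinarith) (ι ⊕ κ) (A g) (fun x => dir (Sum.elim v w x))
      (fun x => dir_norm _) ?_ ?_
    · intro x y hxy
      have h3 := hsw x y hxy
      have h4 := dir_sep4 (hvw x) (hvw y)
      rw [hc, mul_one_div, div_le_iff₀ (by positivity)]
      linarith
    · rw [mul_pow]
      calc c ^ d = c ^ d * 1 := by ring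
        _ ≤ c ^ d * (δ ^ d * M) := by gcongr
        _ = δ ^ d * c ^ d * M := by ring
  calc ∫⁻ z, mult T z ^ q ≤ ∫⁻ z, (K : ℝ≥0∞) ^ (q - 1) *
        ∑ g : G, mult (U g) ((eqvj d 0).symm z) ^ q := by
        apply lintegral_mono
        intro z
        refine (ENNReal.rpow_le_rpow (hpt z) hq0.le).trans ?_
        have := ENNReal.rpow_sum_le_const_mul_sum_rpow (Finset.univ : Finset G)
          (fun g => mult (U g) ((eqvj d 0).symm z)) hq1
        rwa [Finset.card_univ] at this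
    _ = (K : ℝ≥0∞) ^ (q - 1) * ∑ g : G, ∫⁻ z, mult (U g) ((eqvj d 0).symm z) ^ q := by
        rw [lintegral_const_mul _ (Finset.measurable_sum _ fun g _ => hmeas g),
          lintegral_finsetSum _ fun g _ => hmeas g]
    _ ≤ (K : ℝ≥0∞) ^ (q - 1) * ∑ _g : G, ENNReal.ofReal
      (C * ((δ * c) ^ (-ε) * ((δ * c) ^ d * M ^ (q - 1 / (d : ℝ))))) := by
        gcongr with g hg
        exact hint g
    _ = ENNReal.ofReal ((K : ℝ) ^ (q - 1) * (K *
      (C * ((δ * c) ^ (-ε) * ((δ * c) ^ d * M ^ (q - 1 / (d : ℝ))))))) := by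
        rw [Finset.sum_const, Finset.card_univ, nsmul_eq_mul, ← ENNReal.ofReal_natCast,
          ENNReal.ofReal_rpow_of_nonneg (by positivity) (by linarith),
          ← ENNReal.ofReal_mul (by positivity), ← ENNReal.ofReal_mul (by positivity)]
    _ ≤ _ := by
        apply ENNReal.ofReal_le_ofReal
        have hqd : 0 ≤ q - 1 / (d : ℝ) := by
          have : 1 / (d : ℝ) ≤ 1 := by
            rw [div_le_one hd0]
            exact_mod_cast hd
          linarith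
        have h1 : (δ * c) ^ d ≤ δ ^ d := by
          gcongr
          nlinarith
        have h2 : M ^ (q - 1 / (d : ℝ)) ≤ 10 ^ (d * (q - 1 / (d : ℝ))) * δ ^ (-(d * (q - 1 / (d : ℝ)))) := by
          calc M ^ (q - 1 / (d : ℝ)) ≤ ((10 / δ) ^ d) ^ (q - 1 / (d : ℝ)) := by
                gcongr
            _ = (10 / δ) ^ (d * (q - 1 / (d : ℝ))) := by
                rw [← Real.rpow_natCast, ← Real.rpow_mul (by positivity)]
            _ = _ := by
                rw [Real.div_rpow (by norm_num) hδ.le, Real.rpow_neg hδ.le, div_eq_mul_inv]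
        have h3 : δ ^ (-ε) * (δ ^ d * δ ^ (-(d * (q - 1 / (d : ℝ))))) =
            δ ^ (-(ε + (d * (q - 1) - 1))) := by
          rw [← Real.rpow_natCast, ← Real.rpow_add hδ, ← Real.rpow_add hδ]
          congr 1
          field_simp
          ring
        rw [Real.mul_rpow hδ.le hc0.le, ← h3]
        calc (K : ℝ) ^ (q - 1) * (K * (C * (δ ^ (-ε) * c ^ (-ε) * ((δ * c) ^ d *
              M ^ (q - 1 / (d : ℝ))))))
            ≤ (K : ℝ) ^ (q - 1) * (K * (C * (δ ^ (-ε) * c ^ (-ε) * (δ ^ d *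
              (10 ^ (d * (q - 1 / (d : ℝ))) * δ ^ (-(d * (q - 1 / (d : ℝ))))))))) := by gcongr
          _ = _ := by ring

/-- From full families to all families without a loss. -/
theorem euF_of_full (hd : 2 ≤ d) {q q' ε C : ℝ} (hq : 1 + 1 / (d : ℝ) ≤ q) (hε : 0 ≤ ε) (hC : 0 ≤ C)
    (h : FuL d q ε ((1 / (20 * ((d : ℝ) + 1))) ^ d) C)
    (hq' : q + 7 * ((d : ℝ) + 1) * (ε + (d * (q - 1) - 1)) < q') :
    ∃ C : ℝ, 0 < C ∧ EuF d q' C := by
  have hdr : (2 : ℝ) ≤ d := by exact_mod_cast hd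
  have hd0 : (0 : ℝ) < d := by linarith
  have hp0 : 0 < 1 / (d : ℝ) := by positivity
  have hdp : 1 ≤ d * (q - 1) := by
    have h1 : (d : ℝ) * (1 / d) ≤ d * (q - 1) := by
      apply mul_le_mul_of_nonneg_left _ hd0.le
      linarith
    have h2 : (d : ℝ) * (1 / d) = 1 := by field_simp
    linarith
  set E : ℝ := ε + (d * (q - 1) - 1) with hE
  have hE0 : 0 ≤ E := by rw [hE]; linarith
  have hqq : q < q' := by
    have : 0 ≤ 7 * ((d : ℝ) + 1) * E := by positivity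
    linarith
  rcases lt_or_ge (1 + 2 / ((d + 1 : ℕ) : ℝ)) q' with h1 | h1
  · obtain ⟨A, hA, hw⟩ := Pool.Agent.Y254.wolff (n := d + 1) (by omega) h1
    refine ⟨A, hA, ?_⟩
    intro δ hδ hδ1 ι _ a e he hsep
    have h2 := hw δ hδ hδ1 a e he hsep
    have e1 : (((d + 1 : ℕ) : ℝ) - 1) = d := by push_cast; ring
    rw [e1, Nat.add_sub_cancel] at h2
    exact h2
  · have hq2 : q' ≤ 2 := by
      refine h1.trans ?_
      have : 2 / ((d + 1 : ℕ) : ℝ) ≤ 1 := by
        rw [div_le_one (by positivity)]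
        push_cast
        linarith
      linarith
    set τ : ℝ := (q' - q - 7 * ((d : ℝ) + 1) * E) / (14 * ((d : ℝ) + 1)) with hτ
    have hτ0 : 0 < τ := div_pos (by linarith) (by positivity)
    have hτq : 7 * ((d : ℝ) + 1) * (E + τ) < q' - q := by
      have e1 : 7 * ((d : ℝ) + 1) * (E + τ) =
          7 * ((d : ℝ) + 1) * E + (q' - q - 7 * ((d : ℝ) + 1) * E) / 2 := by
        rw [hτ]
        field_simp
        ring
      rw [e1]
      linarith
    have hLF : ∀ R : ℝ, 1 ≤ R → ∃ C : ℝ, 0 ≤ C ∧ LF d R q' C := by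
      intro R hR
      obtain ⟨B, hB, hfull⟩ := slopes_of_full (by omega) hq hC h hR
      obtain ⟨C', hC', hL⟩ := rep (by omega) hq hB hτ0 hfull
      exact loss_removal_quant (by omega) hR hq hqq hq2 (by positivity) hτq hC' hL
    have hq'' : 1 + 1 / (d : ℝ) ≤ q' := by linarith
    obtain ⟨C, hC, hT⟩ := Pool.Agent.Y244.HM.tubeP (by omega) hq''
      (allwP_of_LF (by omega) hq'' hLF)
    refine ⟨C, hC, ?_⟩
    intro δ hδ hδ1 ι _ a e he hsep
    have h2 := hT δ hδ hδ1.le ι a e he hsep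
    have e1 : C * δ ^ (d : ℝ) * (Fintype.card ι : ℝ) ^ (q' - 1 / (d : ℝ)) =
        C * (δ ^ d * (Fintype.card ι : ℝ) ^ (q' - 1 / (d : ℝ))) := by
      rw [Real.rpow_natCast]; ring
    rw [e1] at h2
    exact h2

end Pool.Agent.U530.PB
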