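import Mathlib
set_option autoImplicit false

/-! Shifts with small multiplicities. -/

namespace Pool.Agent.U530.PB

open Finset

/-- Among all the `K`-tuples of shifts there is one with small multiplicities. -/
theorem exists_shifts {G : Type} [AddCommGroup G] [DecidableEq G] {Z : Type} [Fintype Z]
    [DecidableEq Z] [Nonempty Z] (s : Z → G) (hs : Function.Injective s) (A X : Finset G) (K L : ℕ)
    (h : X.card * (K * A.card) ^ L < Fintype.card Z ^ L) :
    ∃ z : Fin K → Z, ∀ c ∈ X, (univ.filter fun k => c - s (z k) ∈ A).card < L := by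
  by_contra hcon
  push Not at hcon
  set S : ℕ := Fintype.card Z with hS
  have hS0 : 0 < S := Fintype.card_pos
  -- the bad sets
  set bad : G → Finset (Fin K) → Finset (Fin K → Z) := fun c J =>
    Fintype.piFinset fun k => if k ∈ J then univ.filter (fun y => c - s y ∈ A) else univ with hbad
  have hone : ∀ c, (univ.filter fun y : Z => c - s y ∈ A).card ≤ A.card := by
    intro c
    refine card_le_card_of_injOn (fun y => c - s y) (fun y hy => ?_) (fun y _ y' _ hyy => ?_)
    · exact (mem_filter.1 hy).2
    · exact hs (sub_right_injective hyy)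
  have hbc : ∀ c J, J ∈ powersetCard L (univ : Finset (Fin K)) →
      (bad c J).card ≤ A.card ^ L * S ^ (K - L) := by
    intro c J hJ
    rw [hbad, Fintype.card_piFinset]
    have hJL := (mem_powersetCard.1 hJ).2
    have e1 : ∀ k : Fin K, (if k ∈ J then univ.filter (fun y => c - s y ∈ A) else univ : Finset Z).card =
        if k ∈ J then (univ.filter (fun y => c - s y ∈ A)).card else S := by
      intro k
      by_cases hk : k ∈ J
      · rw [if_pos hk, if_pos hk]
      · rw [if_neg hk, if_neg hk, card_univ]
    rw [prod_congr rfl (fun k _ => e1 k), prod_ite, prod_const, prod_const]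
    have e2 : (univ.filter fun k => k ∈ J) = J := by ext k; simp
    have e3 : (univ.filter fun k => k ∉ J).card = K - L := by
      have : (univ.filter fun k => k ∉ J) = Jᶜ := by ext k; simp
      rw [this, card_compl, Fintype.card_fin, hJL]
    rw [e2, e3, hJL]
    exact Nat.mul_le_mul_right _ (Nat.pow_le_pow_left (hone c) L)
  have hcov : (univ : Finset (Fin K → Z)) ⊆
      X.biUnion fun c => (powersetCard L (univ : Finset (Fin K))).biUnion fun J => bad c J := by
    intro z _
    obtain ⟨c, hc, hcL⟩ := hcon z
    obtain ⟨J, hJs, hJ⟩ := exists_subset_card_eq hcL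
    rw [mem_biUnion]
    refine ⟨c, hc, ?_⟩
    rw [mem_biUnion]
    refine ⟨J, mem_powersetCard.2 ⟨subset_univ _, hJ⟩, ?_⟩
    rw [hbad, Fintype.mem_piFinset]
    intro k
    by_cases hk : k ∈ J
    · rw [if_pos hk, mem_filter]
      exact ⟨mem_univ _, (mem_filter.1 (hJs hk)).2⟩
    · rw [if_neg hk]
      exact mem_univ _
  have h1 : S ^ K ≤ X.card * ((K.choose L) * (A.card ^ L * S ^ (K - L))) := by
    have h2 : (univ : Finset (Fin K → Z)).card = S ^ K := by
      rw [card_univ, Fintype.card_fun, Fintype.card_fin]
    rw [← h2]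
    refine (card_le_card hcov).trans (card_biUnion_le.trans ?_)
    rw [← smul_eq_mul, ← sum_const]
    refine sum_le_sum fun c _ => ?_
    refine card_biUnion_le.trans ?_
    have h3 : ((powersetCard L (univ : Finset (Fin K))).card) = K.choose L := by
      rw [card_powersetCard, card_univ, Fintype.card_fin]
    rw [← h3, ← smul_eq_mul, ← sum_const]
    exact sum_le_sum fun J hJ => hbc c J hJ
  rcases Nat.lt_or_ge K L with hKL | hKL
  · rw [Nat.choose_eq_zero_of_lt hKL, zero_mul, mul_zero] at h1
    exact absurd h1 (not_le.2 (pow_pos hS0 K))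
  · have h4 : K.choose L ≤ K ^ L := Nat.choose_le_pow K L
    have h5 : S ^ K = S ^ L * S ^ (K - L) := by
      rw [← pow_add]
      congr 1
      omega
    rw [h5] at h1
    have h6 : X.card * ((K.choose L) * (A.card ^ L * S ^ (K - L))) ≤
        (X.card * (K * A.card) ^ L) * S ^ (K - L) := by
      rw [mul_pow]
      calc X.card * ((K.choose L) * (A.card ^ L * S ^ (K - L)))
          ≤ X.card * (K ^ L * (A.card ^ L * S ^ (K - L))) := by gcongr
        _ = _ := by ring
    have h7 := h1.trans h6
    have h8 : 0 < S ^ (K - L) := pow_pos hS0 _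
    exact absurd (Nat.le_of_mul_le_mul_right h7 h8) (not_le.2 h)

/-- an index inside the fibres -/
theorem exists_rank {α β : Type} [Fintype α] [DecidableEq β] (g : α → β) {L : ℕ}
    (h : ∀ b, (univ.filter fun a => g a = b).card ≤ L) :
    ∃ r : α → Fin L, ∀ a a', g a = g a' → r a = r a' → a = a' := by
  classical
  have h1 : ∀ b, ∃ e : {a // g a = b} → Fin L, Function.Injective e := by
    intro b
    have h2 : Fintype.card {a // g a = b} ≤ Fintype.card (Fin L) := by
      rw [Fintype.card_subtype, Fintype.card_fin]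
      exact h b
    obtain ⟨e⟩ := Function.Embedding.nonempty_of_card_le h2
    exact ⟨e, e.injective⟩
  choose e he using h1
  refine ⟨fun a => e (g a) ⟨a, rfl⟩, fun a a' hg hr => ?_⟩
  have hr' : e (g a) ⟨a, rfl⟩ = e (g a') ⟨a', rfl⟩ := hr
  have h3 : e (g a') ⟨a, hg⟩ = e (g a') ⟨a', rfl⟩ := by
    rw [← hr']
    have : ∀ b (hb : g a = b), e b ⟨a, hb⟩ = e (g a) ⟨a, rfl⟩ := by
      intro b hb
      subst hb
      rfl
    exact this _ hg
  exact congrArg Subtype.val (he _ h3)

end Pool.Agent.U530.PB
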