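import Pool.Agent.U912.Few.Base
import Pool.Agent.Y254.EL.Dual3
set_option autoImplicit false

/-! From the boxes of the paraboloid to families of slope tubes. -/

open MeasureTheory Set Filter Topology Metric
open scoped ENNReal NNReal

namespace Pool.Agent.U530.PB

open Pool.Agent.H810R3.Tub (Vec Space nor box Fb Fb_measurable lint_smul finrank_space dir norm_e)
open Pool.Agent.U912.Few (Caps Iq card_le bush)
open Pool.Agent.Y254 (mult)
open Pool.Agent.Y254.EL (Pt tb Sep tb_meas)

variable {d : ℕ}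

/-- the scaling -/
noncomputable def Ph (d : ℕ) (lam rho : ℝ) (z : Pt d) : Space d :=
  WithLp.toLp 2 (WithLp.toLp 2 (fun j => rho * z.2 j), lam * z.1)

theorem norm_vec_le {x : Vec d} {M : ℝ} (hM : 0 ≤ M) (h : ∀ j, |x j| ≤ M) : ‖x‖ ≤ d * M := by
  have hd0 : (0 : ℝ) ≤ d := Nat.cast_nonneg d
  rw [EuclideanSpace.norm_eq]
  have h1 : ∑ i, ‖x i‖ ^ 2 ≤ ∑ _i : Fin d, M ^ 2 := by
    refine Finset.sum_le_sum fun i _ => ?_
    rw [Real.norm_eq_abs]
    exact pow_le_pow_left₀ (abs_nonneg _) (h i) 2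
  rw [Finset.sum_const, Finset.card_univ, Fintype.card_fin, nsmul_eq_mul] at h1
  refine (Real.sqrt_le_sqrt h1).trans ?_
  rw [← Real.sqrt_sq (show (0 : ℝ) ≤ d * M by positivity)]
  apply Real.sqrt_le_sqrt
  rcases Nat.eq_zero_or_pos d with h0 | h0
  · subst h0; simp
  · have h2 : (1 : ℝ) ≤ d := by exact_mod_cast h0
    rw [mul_pow]
    have h3 : (d : ℝ) ≤ (d : ℝ) ^ 2 := by nlinarith
    exact mul_le_mul_of_nonneg_right h3 (by positivity)

/-- change of variables -/
theorem lint_Ph {lam rho : ℝ} (hl : 0 < lam) (hr : 0 < rho) {g : Space d → ℝ≥0∞} (hg : Measurable g) :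
    ∫⁻ z : Pt d, g (Ph d lam rho z) = ENNReal.ofReal ((lam * rho ^ d)⁻¹) * ∫⁻ y, g y := by
  have hmp := WithLp.volume_preserving_toLp (Vec d) ℝ
  have e1 : ∫⁻ y : Space d, g y = ∫⁻ t : ℝ, ∫⁻ x : Vec d, g (WithLp.toLp 2 (x, t)) := by
    rw [← hmp.lintegral_comp hg]
    have hg2 : Measurable (fun q : Vec d × ℝ => g (WithLp.toLp 2 q)) := hg.comp hmp.measurable
    rw [Measure.volume_eq_prod, lintegral_prod_symm _ hg2.aemeasurable]
  have hPh : Measurable (Ph d lam rho) := by
    have : Continuous (Ph d lam rho) := by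
      unfold Ph
      fun_prop
    exact this.measurable
  have e2 : ∫⁻ z : Pt d, g (Ph d lam rho z) =
      ∫⁻ t : ℝ, ∫⁻ x : Fin d → ℝ, g (Ph d lam rho (t, x)) := by
    rw [Measure.volume_eq_prod]
    exact lintegral_prod _ (hg.comp hPh).aemeasurable
  have e3 : ∀ t : ℝ, ∫⁻ x : Fin d → ℝ, g (Ph d lam rho (t, x)) =
      ENNReal.ofReal ((rho ^ d)⁻¹) * ∫⁻ x : Vec d, g (WithLp.toLp 2 (x, lam * t)) := by
    intro t
    have hgt : Measurable fun x : Vec d => g (WithLp.toLp 2 (x, lam * t)) := by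
      have : Continuous fun x : Vec d => (WithLp.toLp 2 (x, lam * t) : Space d) := by fun_prop
      exact hg.comp this.measurable
    have h1 := lint_smul (volume : Measure (Vec d)) hr.ne' (fun x => g (WithLp.toLp 2 (x, lam * t)))
    rw [finrank_euclideanSpace_fin, abs_of_pos (by positivity)] at h1
    rw [← h1]
    have h2 : Measurable fun x : Vec d => g (WithLp.toLp 2 (rho • x, lam * t)) :=
      hgt.comp (measurable_const_smul rho)
    have h3 := (PiLp.volume_preserving_toLp (Fin d)).lintegral_comp h2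
    rw [← h3]
    rfl
  have hG : Measurable fun t : ℝ => ∫⁻ x : Vec d, g (WithLp.toLp 2 (x, t)) := by
    have hg2 : Measurable (fun q : Vec d × ℝ => g (WithLp.toLp 2 q)) := hg.comp hmp.measurable
    exact hg2.lintegral_prod_left'
  rw [e2, lintegral_congr e3, lintegral_const_mul' _ _ ENNReal.ofReal_ne_top, e1]
  have h4 := lint_smul (volume : Measure ℝ) hl.ne' (fun t => ∫⁻ x : Vec d, g (WithLp.toLp 2 (x, t)))
  rw [Module.finrank_self, pow_one, abs_of_pos (by positivity)] at h4
  have h5 : ∫⁻ t : ℝ, ∫⁻ x : Vec d, g (WithLp.toLp 2 (x, lam * t)) =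
      ENNReal.ofReal lam⁻¹ * ∫⁻ t : ℝ, ∫⁻ x : Vec d, g (WithLp.toLp 2 (x, t)) := h4
  rw [h5, ← mul_assoc, ← ENNReal.ofReal_mul (by positivity)]
  congr 2
  rw [mul_inv]
  ring

/-- the parameter of the cap for the slope `v` -/
noncomputable def om (d : ℕ) (v : Fin d → ℝ) : Vec d := WithLp.toLp 2 (fun j => -(1 / (8 * d)) * v j)

theorem om_apply (v : Fin d → ℝ) (j : Fin d) : om d v j = -(1 / (8 * d)) * v j := rfl

/-- a slope tube is mapped into a box -/
theorem tb_sub_box (hd : 1 ≤ d) {R δ b : ℝ} (hR : 1 ≤ R) (hδ : 0 < δ) (hδ1 : δ < 1)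
    {P v : Fin d → ℝ} (hv : ‖v‖ ≤ 2) {f : Fin d → Space d}
    (hf : Orthonormal ℝ (Fin.cons (nor (om d v)) f : Fin (d + 1) → Space d))
    {z : Pt d} (hz : z ∈ tb R (R * δ) b P v) :
    Ph d ((1 / δ) ^ 2 / (5 * R)) ((1 / δ) ^ 2 / (5 * R) * (1 / (4 * d))) z ∈
      box (1 / δ) (nor (om d v)) f
        (Ph d ((1 / δ) ^ 2 / (5 * R)) ((1 / δ) ^ 2 / (5 * R) * (1 / (4 * d))) (b, P + b • v)) := by
  have hd0 : (0 : ℝ) < d := by exact_mod_cast hd
  have hR0 : 0 < R := by linarith
  set lam : ℝ := (1 / δ) ^ 2 / (5 * R) with hlam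
  set mu : ℝ := 1 / (4 * d) with hmu
  have hl0 : 0 < lam := by positivity
  have hm0 : 0 < mu := by positivity
  obtain ⟨t, x⟩ := z
  obtain ⟨h1, h2⟩ := hz
  simp only at h1 h2
  set s : ℝ := t - b with hs
  set x' : Fin d → ℝ := x - P - t • v with hx'
  -- the vectors
  set w : Space d := WithLp.toLp 2 ((WithLp.toLp 2 (fun j => mu * v j) : Vec d), (1 : ℝ)) with hw
  set u : Space d := WithLp.toLp 2 ((WithLp.toLp 2 x' : Vec d), (0 : ℝ)) with hu
  have hmv : -(2 : ℝ) • om d v = (WithLp.toLp 2 (fun j => mu * v j) : Vec d) := by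
    ext j
    show -(2 : ℝ) * (-(1 / (8 * d)) * v j) = mu * v j
    rw [hmu]
    field_simp
    ring
  have hdiff : Ph d lam (lam * mu) (t, x) - Ph d lam (lam * mu) (b, P + b • v) =
      (lam * s) • w + (lam * mu) • u := by
    have e1 : ∀ j, lam * mu * x j - lam * mu * (P j + b * v j) =
        lam * s * (mu * v j) + lam * mu * (x j - P j - t * v j) := by
      intro j
      rw [hs]; ring
    apply (WithLp.ofLp_injective 2)
    refine Prod.ext ?_ ?_
    · ext j
      exact e1 j
    · show lam * t - lam * b = lam * s * 1 + lam * mu * 0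
      rw [hs]; ring
  set c : ℝ := √(1 + ‖-(2 : ℝ) • om d v‖ ^ 2) with hc
  have hc1 : 1 ≤ c := by
    rw [hc]
    apply Real.one_le_sqrt.2
    nlinarith [sq_nonneg ‖-(2 : ℝ) • om d v‖]
  have hc0 : 0 < c := by linarith
  have hnor : nor (om d v) = c⁻¹ • w := by
    unfold nor dir
    rw [← hc, hmv]
  have hw' : w = c • nor (om d v) := by
    rw [hnor, smul_smul, mul_inv_cancel₀ hc0.ne', one_smul]
  have hcle : c ≤ 3 / 2 := by
    rw [hc, hmv]
    have h3 : ‖(WithLp.toLp 2 (fun j => mu * v j) : Vec d)‖ ≤ 1 / 2 := by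
      have h4 := norm_vec_le (x := (WithLp.toLp 2 (fun j => mu * v j) : Vec d)) (M := mu * 2)
        (by positivity) (fun j => by
          show |mu * v j| ≤ mu * 2
          rw [abs_mul, abs_of_pos hm0]
          have := (norm_le_pi_norm v j).trans hv
          rw [Real.norm_eq_abs] at this
          gcongr)
      have e : (d : ℝ) * (mu * 2) = 1 / 2 := by
        rw [hmu]; field_simp; norm_num
      rwa [e] at h4
    rw [Real.sqrt_le_left (by norm_num)]
    nlinarith [norm_nonneg (WithLp.toLp 2 (fun j => mu * v j) : Vec d)]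
  have hu' : ‖u‖ ≤ d * (R * δ) := by
    have h3 : ‖(WithLp.toLp 2 x' : Vec d)‖ ≤ d * (R * δ) := by
      refine norm_vec_le (by positivity) (fun j => ?_)
      have := (norm_le_pi_norm x' j).trans h2
      rwa [Real.norm_eq_abs] at this
    refine le_trans (le_of_eq ?_) h3
    rw [hu, WithLp.prod_norm_eq_of_L2]
    simp
  have hlm : lam * mu * (d * (R * δ)) = 1 / δ / 20 := by
    rw [hlam, hmu]
    field_simp
    norm_num
  have hue : ∀ e : Space d, ‖e‖ = 1 → |inner ℝ e ((lam * mu) • u)| ≤ 1 / δ / 20 := by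
    intro e he
    rw [inner_smul_right, abs_mul, abs_of_pos (by positivity)]
    calc lam * mu * |inner ℝ e u| ≤ lam * mu * (d * (R * δ)) := by
          gcongr
          refine (abs_real_inner_le_norm e u).trans ?_
          rw [he, one_mul]
          exact hu'
      _ = _ := hlm
  have hN1 : 1 ≤ 1 / δ := by
    rw [le_div_iff₀ hδ]; linarith
  have hff : ∀ j, ‖f j‖ = 1 ∧ inner ℝ (f j) (nor (om d v)) = 0 := by
    intro j
    have a1 := hf.1 j.succ
    have a2 := hf.2 (show j.succ ≠ (0 : Fin (d + 1)) from Fin.succ_ne_zero j)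
    rw [Fin.cons_succ] at a1
    rw [Fin.cons_succ, Fin.cons_zero] at a2
    exact ⟨a1, a2⟩
  refine ⟨?_, fun j => ?_⟩
  · rw [hdiff, inner_add_right]
    have hen := norm_e hf
    have a1 : inner ℝ (nor (om d v)) ((lam * s) • w) = lam * s * c := by
      rw [hw', inner_smul_right, inner_smul_right, real_inner_self_eq_norm_sq, hen]
      ring
    have a2 : |lam * s * c| ≤ 3 / 10 * (1 / δ) ^ 2 := by
      rw [abs_mul, abs_mul, abs_of_pos hl0, abs_of_pos hc0]
      calc lam * |s| * c ≤ lam * R * (3 / 2) := by gcongr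
        _ = 3 / 10 * (1 / δ) ^ 2 := by
          rw [hlam]
          field_simp
          norm_num
    rw [a1]
    refine (abs_add_le _ _).trans ?_
    have a3 := hue _ hen
    nlinarith
  · rw [hdiff, inner_add_right, hw', inner_smul_right, inner_smul_right, (hff j).2, mul_zero,
      mul_zero, zero_add]
    refine (hue _ (hff j).1).trans ?_
    have : 0 < 1 / δ := by positivity
    linarith

end Pool.Agent.U530.PB
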