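import Pool.Agent.U530.PB.Full
set_option autoImplicit false

/-! The bound for full families of slope tubes. -/

open MeasureTheory Set Filter Topology Metric
open scoped ENNReal NNReal

namespace Pool.Agent.U530.PB

open Pool.Agent.H810R3.Tub (Vec Space nor box Fb Fb_measurable lint_smul finrank_space dir norm_e
  norm_dir)
open Pool.Agent.U912.Few (Caps Iq card_le bush)
open Pool.Agent.R251.Nec (exists_frame)
open Pool.Agent.Y254 (mult)
open Pool.Agent.Y254.EL (Pt tb Sep tb_meas exists_coord)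

variable {d : ℕ}

/-- the inequality for boxes at one exponent -/
def HB (d : ℕ) (p β σ κ C : ℝ) : Prop := ∀ N : ℝ, 1 ≤ N → ∀ (ι : Type) [Fintype ι] (ω : ι → Vec d)
    (f : ι → Fin d → Space d) (a : ι → Space d), Caps σ κ N ω f → Iq (C * N ^ β) N p ω f a

/-- the points which fill up the family -/
noncomputable def fill (d : ℕ) (j0 : Fin d) (s : ℝ) {m : ℕ} (z : Fin d → Fin m) : Vec d :=
  EuclideanSpace.single j0 (3 / 4 : ℝ) + WithLp.toLp 2 (fun j => s * ((z j : ℕ) : ℝ))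

theorem exists_full (hd : 1 ≤ d) {δ : ℝ} (hδ : 0 < δ) (hδ1 : δ < 1) {ι : Type} [Fintype ι]
    (v : ι → Fin d → ℝ) (hv : ∀ i, ‖v i‖ ≤ 2) (hs : Sep δ v) :
    ∃ (κ : Type) (_ : Fintype κ) (ω : ι ⊕ κ → Vec d) (f : ι ⊕ κ → Fin d → Space d),
      (∀ i, ω (Sum.inl i) = om d (v i)) ∧ Caps (1 / (8 * d)) 1 (1 / δ) ω f := by
  have hd0 : (0 : ℝ) < d := by exact_mod_cast hd
  have hd1 : (1 : ℝ) ≤ d := by exact_mod_cast hd
  set N : ℝ := 1 / δ with hN
  have hN1 : 1 ≤ N := by rw [hN, le_div_iff₀ hδ]; linarith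
  have hN0 : 0 < N := by linarith
  set s : ℝ := 1 / (8 * d) / N with hsd
  have hs0 : 0 < s := by positivity
  have hs8 : s ≤ 1 / 8 := by
    rw [hsd, div_div, div_le_div_iff₀ (by positivity) (by norm_num)]
    nlinarith
  set m : ℕ := ⌊N⌋₊ with hm
  have hmN : (m : ℝ) ≤ N := Nat.floor_le hN0.le
  have hmN' : N ≤ (m : ℝ) + 1 := (Nat.lt_floor_add_one N).le
  set j0 : Fin d := ⟨0, hd⟩ with hj0
  set ω : ι ⊕ (Fin d → Fin (m + 1)) → Vec d :=
    Sum.elim (fun i => om d (v i)) (fun z => fill d j0 s z) with hω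
  have hfr : ∀ x, ∃ f : Fin d → Space d,
      Orthonormal ℝ (Fin.cons (nor (ω x)) f : Fin (d + 1) → Space d) := fun x =>
    exists_frame _ (norm_dir _)
  choose f hf using hfr
  have homc : ∀ i j, |om d (v i) j| ≤ 1 / (4 * d) := by
    intro i j
    rw [om_apply, abs_mul, abs_neg, abs_of_pos (by positivity)]
    have := (norm_le_pi_norm (v i) j).trans (hv i)
    rw [Real.norm_eq_abs] at this
    calc 1 / (8 * (d : ℝ)) * |v i j| ≤ 1 / (8 * d) * 2 := by gcongr
      _ = 1 / (4 * d) := by field_simp; norm_num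
  have homn : ∀ i, ‖om d (v i)‖ ≤ 1 / 4 := by
    intro i
    refine (norm_vec_le (by positivity) (homc i)).trans (le_of_eq ?_)
    field_simp
  have hsmall : ∀ z : Fin d → Fin (m + 1), ‖(WithLp.toLp 2 (fun j => s * ((z j : ℕ) : ℝ)) : Vec d)‖ ≤
      1 / 8 := by
    intro z
    refine (norm_vec_le (M := 1 / (8 * d)) (by positivity) (fun j => ?_)).trans (le_of_eq ?_)
    · show |s * ((z j : ℕ) : ℝ)| ≤ 1 / (8 * d)
      rw [abs_of_nonneg (by positivity)]
      have h1 : ((z j : ℕ) : ℝ) ≤ N := by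
        have : (z j : ℕ) ≤ m := Nat.lt_succ_iff.1 (z j).2
        have : ((z j : ℕ) : ℝ) ≤ m := by exact_mod_cast this
        linarith
      calc s * ((z j : ℕ) : ℝ) ≤ s * N := by gcongr
        _ = 1 / (8 * d) := by rw [hsd]; field_simp
    · field_simp
  have hfillc : ∀ z : Fin d → Fin (m + 1), 3 / 4 ≤ fill d j0 s z j0 := by
    intro z
    have e : fill d j0 s z j0 = 3 / 4 + s * ((z j0 : ℕ) : ℝ) := by
      show (EuclideanSpace.single j0 (3 / 4 : ℝ) : Vec d) j0 + s * ((z j0 : ℕ) : ℝ) = _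
      simp
    rw [e]
    have : 0 ≤ s * ((z j0 : ℕ) : ℝ) := by positivity
    linarith
  have hcross : ∀ (i : ι) (z : Fin d → Fin (m + 1)), s ≤ ‖om d (v i) - fill d j0 s z‖ := by
    intro i z
    have h1 := PiLp.norm_apply_le (om d (v i) - fill d j0 s z) j0
    refine le_trans ?_ h1
    rw [PiLp.sub_apply, Real.norm_eq_abs, abs_sub_comm]
    refine le_trans ?_ (le_abs_self _)
    have h2 := hfillc z
    have h3 := (abs_le.1 (homc i j0)).2
    have h4 : 1 / (4 * (d : ℝ)) ≤ 1 / 4 := by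
      rw [div_le_div_iff₀ (by positivity) (by norm_num)]
      linarith
    linarith
  refine ⟨Fin d → Fin (m + 1), inferInstance, ω, f, fun i => rfl, ?_, ?_, ?_, hf⟩
  · rintro (i | z)
    · exact (homn i).trans (by norm_num)
    · show ‖fill d j0 s z‖ ≤ 1
      unfold fill
      refine (norm_add_le _ _).trans ?_
      rw [PiLp.norm_single]
      have := hsmall z
      have e : ‖(3 / 4 : ℝ)‖ = 3 / 4 := by rw [Real.norm_eq_abs]; norm_num
      rw [e]
      linarith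
  · rintro (i | z) (j | z') hne
    · show s ≤ ‖om d (v i) - om d (v j)‖
      have hij : i ≠ j := fun h => hne (by rw [h])
      have h1 : δ ≤ ‖v i - v j‖ := hs i j hij
      obtain ⟨k, hk⟩ := exists_coord (w := v i - v j) (by linarith)
      have h2 := PiLp.norm_apply_le (om d (v i) - om d (v j)) k
      refine le_trans ?_ h2
      rw [PiLp.sub_apply, om_apply, om_apply, ← mul_sub, Real.norm_eq_abs, abs_mul, abs_neg,
        abs_of_pos (show (0 : ℝ) < 1 / (8 * d) by positivity)]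
      have h3 : |v i k - v j k| = ‖v i - v j‖ := hk
      rw [h3, hsd, div_eq_mul_inv (1 / (8 * (d : ℝ))) N]
      have h4 : N⁻¹ = δ := by rw [hN, one_div, inv_inv]
      rw [h4]
      gcongr
    · exact hcross i z'
    · rw [norm_sub_rev]
      exact hcross j z
    · show s ≤ ‖fill d j0 s z - fill d j0 s z'‖
      have hzz : z ≠ z' := fun h => hne (by rw [h])
      obtain ⟨k, hk⟩ := Function.ne_iff.1 hzz
      have h2 := PiLp.norm_apply_le (fill d j0 s z - fill d j0 s z') k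
      refine le_trans ?_ h2
      have e : (fill d j0 s z - fill d j0 s z') k = s * (((z k : ℕ) : ℝ) - ((z' k : ℕ) : ℝ)) := by
        show ((EuclideanSpace.single j0 (3 / 4 : ℝ) : Vec d) k + s * ((z k : ℕ) : ℝ)) -
          ((EuclideanSpace.single j0 (3 / 4 : ℝ) : Vec d) k + s * ((z' k : ℕ) : ℝ)) = _
        ring
      rw [e, Real.norm_eq_abs, abs_mul, abs_of_pos hs0]
      have h5 : (1 : ℝ) ≤ |((z k : ℕ) : ℝ) - ((z' k : ℕ) : ℝ)| := by
        have h6 : ((z k : ℕ) : ℤ) ≠ ((z' k : ℕ) : ℤ) := by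
          intro h
          exact hk (Fin.ext (by exact_mod_cast h))
        have h7 : (1 : ℤ) ≤ |((z k : ℕ) : ℤ) - ((z' k : ℕ) : ℤ)| := Int.one_le_abs (sub_ne_zero.2 h6)
        exact_mod_cast h7
      nlinarith
  · rw [one_mul, Fintype.card_sum, Fintype.card_fun, Fintype.card_fin, Fintype.card_fin]
    push_cast
    have h1 : N ^ d ≤ ((m : ℝ) + 1) ^ d := pow_le_pow_left₀ hN0.le hmN' d
    have h2 : (0 : ℝ) ≤ (Fintype.card ι : ℝ) := by positivity
    linarith

theorem jac {N R D : ℝ} (hN0 : 0 < N) (hR0 : 0 < R) (hD : 0 < D) (k : ℕ) :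
    (N ^ 2 / (5 * R) * (N ^ 2 / (5 * R) * (1 / (4 * D))) ^ k)⁻¹ =
      (5 * R) ^ (k + 1) * (4 * D) ^ k * (N ^ (2 * (k + 1)))⁻¹ := by
  have h : N ^ 2 / (5 * R) * (N ^ 2 / (5 * R) * (1 / (4 * D))) ^ k =
      (N ^ (2 * (k + 1))) / ((5 * R) ^ (k + 1) * (4 * D) ^ k) := by
    rw [mul_pow, ← mul_assoc, ← pow_succ', div_pow, div_pow, one_pow, ← pow_mul]
    field_simp
  rw [h, inv_div, div_eq_mul_inv]

/-- The bound for full families of slope tubes. -/
theorem full_bound (hd : 1 ≤ d) {p β C : ℝ} (hp1 : 1 ≤ p) (hp : 1 < d * (p - 1)) (hC : 0 ≤ C)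
    (h : HB d p β (1 / (8 * d)) 1 C) {R : ℝ} (hR : 1 ≤ R) :
    ∃ B : ℝ, 0 ≤ B ∧ ∀ δ : ℝ, 0 < δ → δ < 1 → ∀ (ι : Type) [Fintype ι] (b : ι → ℝ)
      (P v : ι → Fin d → ℝ), (∀ i, ‖v i‖ ≤ 2) → Sep δ v →
      ∫⁻ x, mult (fun i => tb R (R * δ) (b i) (P i) (v i)) x ^ p ≤
        ENNReal.ofReal (B * δ ^ (-(β * p + (d * (p - 1) - 1)))) := by
  have hd0 : (0 : ℝ) < d := by exact_mod_cast hd
  have hp0 : 0 < p := by linarith
  have hR0 : 0 < R := by linarith
  set σ : ℝ := 1 / (8 * d) with hσ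
  have hσ0 : 0 < σ := by positivity
  obtain ⟨D, hD, hbush⟩ := bush d hd hσ0 hp1 hp
  set r : ℝ := d * (p - 1) with hr
  refine ⟨(5 * R) ^ (d + 1) * (4 * d) ^ d * (C ^ p * (D * (2 / σ + 2) ^ d)), by positivity, ?_⟩
  intro δ hδ hδ1 ι _ b P v hv hs
  obtain ⟨κ, _, ω, f, hωi, hcaps⟩ := exists_full hd hδ hδ1 v hv hs
  set N : ℝ := 1 / δ with hN
  have hN1 : 1 ≤ N := by rw [hN, le_div_iff₀ hδ]; linarith
  have hN0 : 0 < N := by linarith
  set lam : ℝ := N ^ 2 / (5 * R) with hlam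
  have hl0 : 0 < lam := by positivity
  set rho : ℝ := lam * (1 / (4 * d)) with hrho
  have hr0 : 0 < rho := by positivity
  set a : ι ⊕ κ → Space d := Sum.elim (fun i => Ph d lam rho (b i, P i + b i • v i)) (fun _ => 0)
    with ha
  have h1 := h N hN1 (ι ⊕ κ) ω f a hcaps
  unfold Iq at h1
  have hpt : ∀ z : Pt d, mult (fun i => tb R (R * δ) (b i) (P i) (v i)) z ≤
      Fb N ω f a (Ph d lam rho z) := by
    intro z
    unfold mult Fb
    rw [Fintype.sum_sum_type]
    refine le_trans ?_ le_self_add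
    refine Finset.sum_le_sum fun i _ => ?_
    by_cases hz : z ∈ tb R (R * δ) (b i) (P i) (v i)
    · rw [indicator_of_mem hz, indicator_of_mem]
      · rfl
      · rw [hωi]
        refine tb_sub_box hd hR hδ hδ1 (hv i) ?_ hz
        have := hcaps.2.2.2 (Sum.inl i)
        rwa [hωi] at this
    · rw [indicator_of_notMem hz]
      exact zero_le
  have hb := hbush N hN1 (ι ⊕ κ) ω f hcaps.1 hcaps.2.1 hcaps.2.2.2 N hN0 Set.univ MeasurableSet.univ
    (fun t _ => le_rfl)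
  have hset : {y : Space d | y.snd ∈ (Set.univ : Set ℝ)} = Set.univ := by ext y; simp
  rw [hset, Measure.restrict_univ] at hb
  have hcard := card_le hσ0 hN1 hcaps.1 hcaps.2.1
  have hmain : ∫⁻ y, Fb N ω f a y ^ p ≤ ENNReal.ofReal ((C * N ^ β) ^ p *
      (D * (((2 / σ + 2) * N) ^ d * (N ^ (d + 2 * r : ℝ) * N ^ (1 - r))))) := by
    refine h1.trans ?_
    have e : ENNReal.ofReal ((C * N ^ β) ^ p *
        (D * (((2 / σ + 2) * N) ^ d * (N ^ (d + 2 * r : ℝ) * N ^ (1 - r))))) =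
        ENNReal.ofReal (C * N ^ β) ^ p *
        ENNReal.ofReal (D * (((2 / σ + 2) * N) ^ d * (N ^ (d + 2 * r : ℝ) * N ^ (1 - r)))) := by
      rw [ENNReal.ofReal_mul (by positivity),
        ENNReal.ofReal_rpow_of_nonneg (by positivity) hp0.le]
    rw [e]
    refine mul_le_mul' le_rfl (hb.trans (ENNReal.ofReal_le_ofReal ?_))
    gcongr
  have hm : Measurable fun y : Space d => Fb N ω f a y ^ p := (Fb_measurable N ω f a).pow_const _
  calc ∫⁻ x, mult (fun i => tb R (R * δ) (b i) (P i) (v i)) x ^ p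
      ≤ ∫⁻ z : Pt d, Fb N ω f a (Ph d lam rho z) ^ p :=
        lintegral_mono fun z => ENNReal.rpow_le_rpow (hpt z) hp0.le
    _ = ENNReal.ofReal ((lam * rho ^ d)⁻¹) * ∫⁻ y, Fb N ω f a y ^ p := lint_Ph hl0 hr0 hm
    _ ≤ ENNReal.ofReal ((lam * rho ^ d)⁻¹) * ENNReal.ofReal ((C * N ^ β) ^ p *
          (D * (((2 / σ + 2) * N) ^ d * (N ^ (d + 2 * r : ℝ) * N ^ (1 - r))))) := by gcongr
    _ = _ := by
        rw [← ENNReal.ofReal_mul (by positivity)]
        congr 1
        have e0 : δ ^ (-(β * p + (r - 1))) = N ^ (β * p + (r - 1)) := by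
          rw [hN, one_div, Real.inv_rpow hδ.le, ← Real.rpow_neg hδ.le]
        have e1 : (C * N ^ β) ^ p = C ^ p * N ^ (β * p) := by
          rw [Real.mul_rpow hC (by positivity), ← Real.rpow_mul hN0.le]
        have e2 : (lam * rho ^ d)⁻¹ = (5 * R) ^ (d + 1) * (4 * d) ^ d * (N ^ (2 * (d + 1)))⁻¹ := by
          rw [hrho, hlam]
          exact jac hN0 hR0 hd0 d
        have e3 : (N ^ (2 * (d + 1)))⁻¹ = N ^ (-(2 * ((d : ℝ) + 1))) := by
          rw [Real.rpow_neg hN0.le, ← Real.rpow_natCast]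
          push_cast
          rfl
        have e4 : ((2 / σ + 2) * N) ^ d = (2 / σ + 2) ^ d * N ^ (d : ℝ) := by
          rw [mul_pow, Real.rpow_natCast]
        have e5 : N ^ (β * p + (r - 1)) = N ^ (β * p) * N ^ (d : ℝ) * N ^ (d + 2 * r : ℝ) *
            N ^ (1 - r) * N ^ (-(2 * ((d : ℝ) + 1))) := by
          rw [← Real.rpow_add hN0, ← Real.rpow_add hN0, ← Real.rpow_add hN0, ← Real.rpow_add hN0]
          congr 1
          ring
        rw [e0, e1, e2, e3, e4, e5]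
        ring

end Pool.Agent.U530.PB
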