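import Pool.Agent.U530.PB.Rep
set_option autoImplicit false

/-! From full families to all families: the bound. -/

open MeasureTheory Set Filter Topology Metric
open scoped ENNReal NNReal

namespace Pool.Agent.U530.PB

open Pool.Agent.Y254 (mult mult_meas)
open Pool.Agent.Y254.EL (Pt tb Sep tb_meas exists_coord LoB)

variable {d : ℕ}

theorem cells_inj {δ : ℝ} (hδ : 0 < δ) {ι : Type} {v : ι → Fin d → ℝ} (hs : Sep δ v) :
    Function.Injective fun i => fun j => ⌊v i j / δ⌋ := by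
  intro i i' h
  by_contra hne
  have h1 := hs i i' hne
  refine absurd h1 (not_le.2 ?_)
  rw [pi_norm_lt_iff hδ]
  intro j
  have h2 : ⌊v i j / δ⌋ = ⌊v i' j / δ⌋ := congrFun h j
  have h3 := Int.abs_sub_lt_one_of_floor_eq_floor h2
  rw [Pi.sub_apply, Real.norm_eq_abs]
  rw [← sub_div, abs_div, abs_of_pos hδ, div_lt_one hδ] at h3
  exact h3

theorem rep_core (hd : 1 ≤ d) {R p B δ τ : ℝ} (hp1 : 1 ≤ p) (hB : 0 ≤ B) (hδ : 0 < δ)
    (hδ1 : δ < 1) (hτ : 0 < τ)
    (hfull : ∀ (ι : Type) [Fintype ι] (b : ι → ℝ) (P v : ι → Fin d → ℝ), (∀ i, ‖v i‖ ≤ 2) →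
      Sep δ v → ∫⁻ x, mult (fun i => tb R (R * δ) (b i) (P i) (v i)) x ^ p ≤ ENNReal.ofReal B)
    {ι : Type} [Fintype ι] (b : ι → ℝ) (P v : ι → Fin d → ℝ) (hv : ∀ i, ‖v i‖ ≤ 1) (hs : Sep δ v) :
    ∫⁻ x, mult (fun i => tb R (R * δ) (b i) (P i) (v i)) x ^ p ≤
      ENNReal.ofReal (2 * 8 ^ d * (((⌈2 * d / τ⌉₊ : ℕ) : ℝ) * 2 ^ d) ^ p *
        (B * (Fintype.card ι * δ ^ ((d : ℝ) - τ)))) := by
  classical
  have hd0 : (0 : ℝ) < d := by exact_mod_cast hd
  have hp0 : 0 < p := by linarith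
  set m : ℕ := Fintype.card ι with hm
  rcases Nat.eq_zero_or_pos m with hm0 | hm0
  · have hemp : IsEmpty ι := Fintype.card_eq_zero_iff.1 hm0
    have e0 : ∀ x : Pt d, mult (fun i => tb R (R * δ) (b i) (P i) (v i)) x ^ p = 0 := by
      intro x
      unfold mult
      rw [Finset.univ_eq_empty, Finset.sum_empty, ENNReal.zero_rpow_of_pos hp0]
    simp only [e0, lintegral_zero]
    exact zero_le
  have hmR : (1 : ℝ) ≤ m := by exact_mod_cast hm0
  set L : ℕ := ⌈2 * d / τ⌉₊ with hL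
  have hLr : 2 * d / τ ≤ (L : ℝ) := Nat.le_ceil _
  have hL0 : 0 < L := Nat.ceil_pos.2 (by positivity)
  have hL1 : (1 : ℝ) ≤ L := by exact_mod_cast hL0
  set M : ℕ := ⌊1 / δ⌋₊ with hM
  have h1δ : 1 < 1 / δ := by rw [lt_div_iff₀ hδ]; linarith
  have hMle : (M : ℝ) ≤ 1 / δ := Nat.floor_le (by positivity)
  have hM1 : 1 ≤ M := Nat.le_floor (by exact_mod_cast h1δ.le)
  have hMr : (1 : ℝ) ≤ M := by exact_mod_cast hM1
  have hMge : 1 / δ / 2 ≤ M := by
    have h1 := Nat.lt_floor_add_one (1 / δ)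
    rw [← hM] at h1
    linarith
  set S : ℝ := (M : ℝ) ^ d with hS
  have hS0 : 0 < S := by positivity
  have hSle : S ≤ (1 / δ) ^ d := pow_le_pow_left₀ (by positivity) hMle d
  have hSge : (1 / δ / 2) ^ d ≤ S := pow_le_pow_left₀ (by positivity) hMge d
  set K : ℕ := ⌊S * δ ^ τ / (4 ^ d * m)⌋₊ with hK
  have hδτ : 0 < δ ^ τ := Real.rpow_pos_of_pos hδ _
  have hm00 : (0 : ℝ) < m := by linarith
  have hKle : (K : ℝ) ≤ S * δ ^ τ / (4 ^ d * m) := Nat.floor_le (by positivity)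
  have hKm : (K : ℝ) * m ≤ S * (δ ^ τ / 4 ^ d) := by
    calc (K : ℝ) * m ≤ S * δ ^ τ / (4 ^ d * m) * m := by gcongr
      _ = S * (δ ^ τ / 4 ^ d) := by field_simp
  set Q : ℝ := 2 * 8 ^ d * (m * δ ^ ((d : ℝ) - τ)) with hQ
  have hδd : δ ^ ((d : ℝ) - τ) = δ ^ d / δ ^ τ := by
    rw [Real.rpow_sub hδ, Real.rpow_natCast]
  have hdpos : 0 < δ ^ d := pow_pos hδ d
  have hSQ : 1 ≤ S * δ ^ τ / (4 ^ d * m) * (Q / 2) := by
    have e1 : S * δ ^ τ / (4 ^ d * m) * (Q / 2) = S * (2 ^ d * δ ^ d) := by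
      rw [hQ, hδd]
      have h8 : (8 : ℝ) ^ d = 4 ^ d * 2 ^ d := by rw [← mul_pow]; norm_num
      rw [h8]
      field_simp
    rw [e1]
    calc (1 : ℝ) = (1 / δ / 2) ^ d * (2 ^ d * δ ^ d) := by
          rw [← mul_pow, ← mul_pow]
          have : 1 / δ / 2 * (2 * δ) = 1 := by field_simp
          rw [this, one_pow]
      _ ≤ S * (2 ^ d * δ ^ d) := by gcongr
  have hQ0 : 0 < Q := by positivity
  have hLL : (1 : ℝ) ≤ (L : ℝ) * 2 ^ d := by
    have : (1 : ℝ) ≤ 2 ^ d := one_le_pow₀ (by norm_num)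
    nlinarith
  have hLp : 1 ≤ ((L : ℝ) * 2 ^ d) ^ p := Real.one_le_rpow hLL hp0.le
  have hgoal : 2 * 8 ^ d * ((L : ℝ) * 2 ^ d) ^ p * (B * (m * δ ^ ((d : ℝ) - τ))) =
      Q * (((L : ℝ) * 2 ^ d) ^ p * B) := by rw [hQ]; ring
  rw [hgoal]
  have hv2 : ∀ i, ‖v i‖ ≤ 2 := fun i => (hv i).trans (by norm_num)
  rcases Nat.eq_zero_or_pos K with hK0 | hK0
  · -- few copies: the trivial bound
    have h1 : S * δ ^ τ / (4 ^ d * m) < 1 := by
      have := Nat.lt_floor_add_one (S * δ ^ τ / (4 ^ d * m))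
      rw [← hK, hK0] at this
      simpa using this
    have h2 : 1 ≤ Q := by
      have h3 : S * δ ^ τ / (4 ^ d * m) * (Q / 2) ≤ 1 * (Q / 2) := by gcongr
      linarith
    refine (hfull ι b P v hv2 hs).trans (ENNReal.ofReal_le_ofReal ?_)
    calc B = 1 * (1 * B) := by ring
      _ ≤ Q * (((L : ℝ) * 2 ^ d) ^ p * B) := by gcongr
  · -- many copies
    have hK1 : (1 : ℝ) ≤ K := by exact_mod_cast hK0
    have hKQ : 1 ≤ Q * K := by
      have h1 := Nat.lt_floor_add_one (S * δ ^ τ / (4 ^ d * m))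
      rw [← hK] at h1
      have h2 : S * δ ^ τ / (4 ^ d * m) ≤ 2 * K := by linarith
      calc (1 : ℝ) ≤ S * δ ^ τ / (4 ^ d * m) * (Q / 2) := hSQ
        _ ≤ 2 * K * (Q / 2) := by gcongr
        _ = Q * K := by ring
    set cell : ι → Fin d → ℤ := fun i j => ⌊v i j / δ⌋ with hcell
    have hinj : Function.Injective cell := cells_inj hδ hs
    set s : (Fin d → Fin M) → Fin d → ℤ := fun z j => ((z j : ℕ) : ℤ) with hs'
    have hsinj : Function.Injective s := by
      intro z z' h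
      funext j
      have h1 : (((z j : ℕ) : ℤ)) = ((z' j : ℕ) : ℤ) := congrFun h j
      exact Fin.ext (by exact_mod_cast h1)
    set A : Finset (Fin d → ℤ) := Finset.univ.image cell with hA
    set X : Finset (Fin d → ℤ) :=
      (Finset.univ ×ˢ Finset.univ : Finset (ι × (Fin d → Fin M))).image fun x => cell x.1 + s x.2
      with hX
    have hAc : A.card ≤ m := by
      rw [hm, ← Finset.card_univ]
      exact Finset.card_image_le
    have hZc : Fintype.card (Fin d → Fin M) = M ^ d := by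
      rw [Fintype.card_fun, Fintype.card_fin, Fintype.card_fin]
    have hXc : X.card ≤ m * M ^ d := by
      refine Finset.card_image_le.trans (le_of_eq ?_)
      rw [Finset.card_product, Finset.card_univ, Finset.card_univ, hZc]
    have hne : Nonempty (Fin d → Fin M) := ⟨fun _ => ⟨0, hM1⟩⟩
    have hcond : X.card * (K * A.card) ^ L < Fintype.card (Fin d → Fin M) ^ L := by
      rw [hZc]
      have h1 : ((X.card * (K * A.card) ^ L : ℕ) : ℝ) < (((M ^ d) ^ L : ℕ) : ℝ) := by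
        push_cast
        have hA' : (A.card : ℝ) ≤ m := by exact_mod_cast hAc
        have hX' : (X.card : ℝ) ≤ m * S := by
          have : (X.card : ℝ) ≤ ((m * M ^ d : ℕ) : ℝ) := by exact_mod_cast hXc
          simpa using this
        have hKA : (K : ℝ) * A.card ≤ S * (δ ^ τ / 4 ^ d) :=
          (mul_le_mul_of_nonneg_left hA' (by positivity)).trans hKm
        have hδτ1 : δ ^ τ ≤ 1 := Real.rpow_le_one hδ.le hδ1.le hτ.le
        have h4d : (4 : ℝ) ≤ 4 ^ d := by
          calc (4 : ℝ) = 4 ^ 1 := by norm_num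
            _ ≤ 4 ^ d := pow_le_pow_right₀ (by norm_num) hd
        have hmS : (m : ℝ) ≤ S / 4 ^ d := by
          calc (m : ℝ) = 1 * m := by ring
            _ ≤ K * m := by gcongr
            _ ≤ S * (δ ^ τ / 4 ^ d) := hKm
            _ ≤ S * (1 / 4 ^ d) := by gcongr
            _ = S / 4 ^ d := by ring
        have hmSS : (m : ℝ) * S ≤ (1 / δ) ^ d * (1 / δ) ^ d / 4 ^ d := by
          calc (m : ℝ) * S ≤ S / 4 ^ d * S := by gcongr
            _ = S * S / 4 ^ d := by ring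
            _ ≤ (1 / δ) ^ d * (1 / δ) ^ d / 4 ^ d := by gcongr
        have hpowL : (δ ^ τ) ^ L ≤ δ ^ d * δ ^ d := by
          rw [← Real.rpow_natCast, ← Real.rpow_mul hδ.le, ← pow_add, ← Real.rpow_natCast δ (d + d)]
          refine Real.rpow_le_rpow_of_exponent_ge hδ hδ1.le ?_
          push_cast
          have h5 : 2 * d ≤ (L : ℝ) * τ := by
            rwa [div_le_iff₀ hτ] at hLr
          linarith
        have h4L : (1 : ℝ) ≤ (4 ^ d) ^ L := one_le_pow₀ (by linarith)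
        calc (X.card : ℝ) * (K * A.card) ^ L
            ≤ ((1 / δ) ^ d * (1 / δ) ^ d / 4 ^ d) * (S * (δ ^ τ / 4 ^ d)) ^ L := by
              gcongr
              exact hX'.trans hmSS
          _ = ((1 / δ) ^ d * (1 / δ) ^ d / 4 ^ d) * (S ^ L * ((δ ^ τ) ^ L / (4 ^ d) ^ L)) := by
              rw [mul_pow S, div_pow (δ ^ τ)]
          _ ≤ ((1 / δ) ^ d * (1 / δ) ^ d / 4 ^ d) * (S ^ L * ((δ ^ d * δ ^ d) / 1)) := by
              gcongr
          _ = S ^ L / 4 ^ d := by
              have e1 : (1 / δ) ^ d * δ ^ d = 1 := by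
                rw [← mul_pow]
                have : 1 / δ * δ = 1 := by field_simp
                rw [this, one_pow]
              calc ((1 / δ) ^ d * (1 / δ) ^ d / 4 ^ d) * (S ^ L * ((δ ^ d * δ ^ d) / 1))
                  = ((1 / δ) ^ d * δ ^ d) * ((1 / δ) ^ d * δ ^ d) * (S ^ L / 4 ^ d) := by ring
                _ = S ^ L / 4 ^ d := by rw [e1]; ring
          _ < S ^ L := by
              rw [div_lt_iff₀ (by positivity)]
              have : 0 < S ^ L := by positivity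
              nlinarith
          _ = ((M : ℝ) ^ d) ^ L := by rw [hS]
      exact_mod_cast h1
    obtain ⟨z, hz⟩ := exists_shifts s hsinj A X K L hcond
    have hn : ∀ k i, ‖v i + fun j => δ * (s (z k) j : ℝ)‖ ≤ 2 := by
      intro k i
      have h1 : ‖(fun j => δ * (s (z k) j : ℝ) : Fin d → ℝ)‖ ≤ 1 := by
        rw [pi_norm_le_iff_of_nonneg zero_le_one]
        intro j
        have h2 : (s (z k) j : ℝ) = ((z k j : ℕ) : ℝ) := by
          rw [hs']
          push_cast
          rfl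
        have h3 : ((z k j : ℕ) : ℝ) ≤ 1 / δ := by
          have : ((z k j : ℕ) : ℝ) ≤ M := by exact_mod_cast (z k j).2.le
          linarith
        rw [h2, Real.norm_eq_abs, abs_of_nonneg (by positivity)]
        calc δ * ((z k j : ℕ) : ℝ) ≤ δ * (1 / δ) := by gcongr
          _ = 1 := by field_simp
      calc ‖v i + fun j => δ * (s (z k) j : ℝ)‖ ≤ ‖v i‖ + ‖(fun j => δ * (s (z k) j : ℝ) : Fin d → ℝ)‖ :=
            norm_add_le _ _
        _ ≤ 1 + 1 := add_le_add (hv i) h1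
        _ = 2 := by norm_num
    have hmul : ∀ c : Fin d → ℤ, (Finset.univ.filter fun x : Fin K × ι =>
        (fun j => ⌊v x.2 j / δ⌋ + s (z x.1) j) = c).card ≤ L := by
      intro c
      by_cases hcX : c ∈ X
      · refine le_trans ?_ (hz c hcX).le
        refine Finset.card_le_card_of_injOn (fun x => x.1) (fun x hx => ?_) (fun x hx y hy hxy => ?_)
        · have hxc : cell x.2 + s (z x.1) = c := by
            have := (Finset.mem_filter.1 (Finset.mem_coe.1 hx)).2
            rw [← this]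
            rfl
          have : c - s (z x.1) = cell x.2 := by rw [← hxc, add_sub_cancel_right]
          rw [Finset.mem_coe, Finset.mem_filter]
          refine ⟨Finset.mem_univ _, ?_⟩
          rw [this, hA]
          exact Finset.mem_image_of_mem _ (Finset.mem_univ _)
        · have hxc : cell x.2 + s (z x.1) = c := by
            have := (Finset.mem_filter.1 (Finset.mem_coe.1 hx)).2
            rw [← this]
            rfl
          have hyc : cell y.2 + s (z y.1) = c := by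
            have := (Finset.mem_filter.1 (Finset.mem_coe.1 hy)).2
            rw [← this]
            rfl
          have hxy' : x.1 = y.1 := hxy
          rw [hxy'] at hxc
          have : cell x.2 = cell y.2 := add_right_cancel (hxc.trans hyc.symm)
          exact Prod.ext hxy' (hinj this)
      · have : (Finset.univ.filter fun x : Fin K × ι =>
            (fun j => ⌊v x.2 j / δ⌋ + s (z x.1) j) = c) = ∅ := by
          rw [Finset.filter_eq_empty_iff]
          intro x _ hxc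
          apply hcX
          rw [hX, Finset.mem_image]
          exact ⟨(x.2, z x.1), Finset.mem_product.2 ⟨Finset.mem_univ _, Finset.mem_univ _⟩, hxc⟩
        rw [this, Finset.card_empty]
        exact Nat.zero_le _
    have hcop := copies hp1 hδ hfull b P v (fun k => s (z k)) hn hmul
    have hKQ' : (1 : ℝ≥0∞) ≤ ENNReal.ofReal Q * (K : ℝ≥0∞) := by
      rw [← ENNReal.ofReal_natCast, ← ENNReal.ofReal_mul hQ0.le, ← ENNReal.ofReal_one]
      exact ENNReal.ofReal_le_ofReal hKQ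
    calc ∫⁻ x, mult (fun i => tb R (R * δ) (b i) (P i) (v i)) x ^ p
        = 1 * ∫⁻ x, mult (fun i => tb R (R * δ) (b i) (P i) (v i)) x ^ p := (one_mul _).symm
      _ ≤ ENNReal.ofReal Q * (K : ℝ≥0∞) *
          ∫⁻ x, mult (fun i => tb R (R * δ) (b i) (P i) (v i)) x ^ p := by gcongr
      _ = ENNReal.ofReal Q * ((K : ℝ≥0∞) *
          ∫⁻ x, mult (fun i => tb R (R * δ) (b i) (P i) (v i)) x ^ p) := by rw [mul_assoc]
      _ ≤ ENNReal.ofReal Q * ENNReal.ofReal (((L : ℝ) * 2 ^ d) ^ p * B) := by gcongr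
      _ = ENNReal.ofReal (Q * (((L : ℝ) * 2 ^ d) ^ p * B)) := (ENNReal.ofReal_mul hQ0.le).symm

/-- From full families to all families. -/
theorem rep (hd : 1 ≤ d) {R p B E τ : ℝ} (hp : 1 + 1 / (d : ℝ) ≤ p) (hB : 0 ≤ B) (hτ : 0 < τ)
    (hfull : ∀ δ : ℝ, 0 < δ → δ < 1 → ∀ (ι : Type) [Fintype ι] (b : ι → ℝ) (P v : ι → Fin d → ℝ),
      (∀ i, ‖v i‖ ≤ 2) → Sep δ v →
      ∫⁻ x, mult (fun i => tb R (R * δ) (b i) (P i) (v i)) x ^ p ≤ ENNReal.ofReal (B * δ ^ (-E))) :
    ∃ C, 0 ≤ C ∧ LoB d R p (E + τ) C := by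
  have hd0 : (0 : ℝ) < d := by exact_mod_cast hd
  have hp1 : 1 ≤ p := by
    have : 0 < 1 / (d : ℝ) := by positivity
    linarith
  set G : ℝ := 2 * 8 ^ d * (((⌈2 * d / τ⌉₊ : ℕ) : ℝ) * 2 ^ d) ^ p with hG
  have hG0 : 0 ≤ G := by positivity
  refine ⟨G * B, by positivity, ?_⟩
  intro δ hδ hδ1 ι _ b P v hv hs
  have h1 := rep_core hd hp1 (B := B * δ ^ (-E)) (by positivity) hδ hδ1 hτ
    (fun ι' _ b' P' v' => hfull δ hδ hδ1 ι' b' P' v') b P v hv hs
  refine h1.trans (ENNReal.ofReal_le_ofReal ?_)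
  rw [← hG]
  have hcm : (Fintype.card ι : ℝ) ≤ (Fintype.card ι : ℝ) ^ (p - 1 / (d : ℝ)) := by
    rcases Nat.eq_zero_or_pos (Fintype.card ι) with h0 | h0
    · rw [h0]
      simp only [Nat.cast_zero]
      positivity
    · have h1 : (1 : ℝ) ≤ Fintype.card ι := by exact_mod_cast h0
      calc (Fintype.card ι : ℝ) = (Fintype.card ι : ℝ) ^ (1 : ℝ) := (Real.rpow_one _).symm
        _ ≤ (Fintype.card ι : ℝ) ^ (p - 1 / (d : ℝ)) :=
            Real.rpow_le_rpow_of_exponent_le h1 (by linarith)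
  have hpow : δ ^ (-E) * δ ^ ((d : ℝ) - τ) = δ ^ (-(E + τ)) * δ ^ d := by
    rw [← Real.rpow_natCast δ d, ← Real.rpow_add hδ, ← Real.rpow_add hδ]
    congr 1
    ring
  calc G * (B * δ ^ (-E) * (Fintype.card ι * δ ^ ((d : ℝ) - τ)))
      = G * B * ((δ ^ (-E) * δ ^ ((d : ℝ) - τ)) * Fintype.card ι) := by ring
    _ = G * B * (δ ^ (-(E + τ)) * (δ ^ d * Fintype.card ι)) := by rw [hpow]; ring
    _ ≤ G * B * (δ ^ (-(E + τ)) * (δ ^ d * (Fintype.card ι : ℝ) ^ (p - 1 / (d : ℝ)))) := by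
        gcongr

end Pool.Agent.U530.PB
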