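import Pool.Agent.U530.PB.Full2
import Pool.Agent.U530.PB.Rep2
import Pool.Agent.U530.KX.Quant
import Pool.Agent.Y249.AC.Int
import Pool.Agent.Y249.AC.Cmp
import Pool.Agent.U912.Few.Extra
set_option autoImplicit false

/-! From the inequality for boxes to the inequality for tubes, and back. -/

open MeasureTheory Set Filter Topology Metric
open scoped ENNReal NNReal

namespace Pool.Agent.U530.PB

open Pool.Agent.H810R3.Tub (Vec Space nor box Fb)
open Pool.Agent.U912.Few (Caps Iq)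
open Pool.Agent.Y254 (mult)
open Pool.Agent.Y254.EL (Pt tb Sep LoB LF EuF allwP_of_LF)
open Pool.Agent.U530.KX (loss_removal_quant)

variable {d : ℕ}

/-- From boxes to tubes. -/
theorem euF_of_HB (hd : 2 ≤ d) {p q β C : ℝ} (hp : 1 + 1 / (d : ℝ) < p) (hβ : 0 ≤ β) (hC : 0 ≤ C)
    (h : HB d p β (1 / (8 * d)) 1 C)
    (hq : p + 7 * ((d : ℝ) + 1) * (β * p + (d * (p - 1) - 1)) < q) :
    ∃ C : ℝ, 0 < C ∧ EuF d q C := by
  have hdr : (2 : ℝ) ≤ d := by exact_mod_cast hd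
  have hd0 : (0 : ℝ) < d := by linarith
  have hp0 : 0 < 1 / (d : ℝ) := by positivity
  have hdp : 1 < d * (p - 1) := by
    have h1 : (d : ℝ) * (1 / d) < d * (p - 1) := by
      apply mul_lt_mul_of_pos_left _ hd0
      linarith
    have h2 : (d : ℝ) * (1 / d) = 1 := by field_simp
    linarith
  set E : ℝ := β * p + (d * (p - 1) - 1) with hE
  have hE0 : 0 ≤ E := by
    have : 0 ≤ β * p := mul_nonneg hβ (by linarith)
    rw [hE]; linarith
  have hpq : p < q := by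
    have : 0 ≤ 7 * ((d : ℝ) + 1) * E := by positivity
    linarith
  rcases lt_or_ge (1 + 2 / ((d + 1 : ℕ) : ℝ)) q with h1 | h1
  · obtain ⟨A, hA, hw⟩ := Pool.Agent.Y254.wolff (n := d + 1) (by omega) h1
    refine ⟨A, hA, ?_⟩
    intro δ hδ hδ1 ι _ a e he hsep
    have h2 := hw δ hδ hδ1 a e he hsep
    have e1 : (((d + 1 : ℕ) : ℝ) - 1) = d := by push_cast; ring
    rw [e1, Nat.add_sub_cancel] at h2
    exact h2
  · have hq2 : q ≤ 2 := by
      refine h1.trans ?_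
      have : 2 / ((d + 1 : ℕ) : ℝ) ≤ 1 := by
        rw [div_le_one (by positivity)]
        push_cast
        linarith
      linarith
    set τ : ℝ := (q - p - 7 * ((d : ℝ) + 1) * E) / (14 * ((d : ℝ) + 1)) with hτ
    have hτ0 : 0 < τ := div_pos (by linarith) (by positivity)
    have hτq : 7 * ((d : ℝ) + 1) * (E + τ) < q - p := by
      have e1 : 7 * ((d : ℝ) + 1) * (E + τ) =
          7 * ((d : ℝ) + 1) * E + (q - p - 7 * ((d : ℝ) + 1) * E) / 2 := by
        rw [hτ]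
        field_simp
        ring
      rw [e1]
      linarith
    have hLF : ∀ R : ℝ, 1 ≤ R → ∃ C : ℝ, 0 ≤ C ∧ LF d R q C := by
      intro R hR
      obtain ⟨B, hB, hfull⟩ := full_bound (by omega) (by linarith) hdp hC h hR
      obtain ⟨C', hC', hL⟩ := rep (by omega) hp.le hB hτ0 hfull
      exact loss_removal_quant (by omega) hR hp.le hpq hq2 (by positivity) hτq hC' hL
    have hq' : 1 + 1 / (d : ℝ) ≤ q := by linarith
    obtain ⟨C, hC, hT⟩ := Pool.Agent.Y244.HM.tubeP (by omega) hq'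
      (allwP_of_LF (by omega) hq' hLF)
    refine ⟨C, hC, ?_⟩
    intro δ hδ hδ1 ι _ a e he hsep
    have h2 := hT δ hδ hδ1.le ι a e he hsep
    have e1 : C * δ ^ (d : ℝ) * (Fintype.card ι : ℝ) ^ (q - 1 / (d : ℝ)) =
        C * (δ ^ d * (Fintype.card ι : ℝ) ^ (q - 1 / (d : ℝ))) := by
      rw [Real.rpow_natCast]; ring
    rw [e1] at h2
    exact h2

theorem tubeB_of_euF {q C : ℝ} (hd : 1 ≤ d) (hC : 0 < C) (h : EuF d q C) :
    Pool.Agent.Y249.AC.TubeB d (d * (q - 1)) := by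
  have hd0 : (0 : ℝ) < d := by exact_mod_cast hd
  have e1 : 1 + (d : ℝ) * (q - 1) / d = q := by field_simp; ring
  refine ⟨C, hC, ?_⟩
  intro δ hδ hδ1 ι _ a e he hsep
  rw [e1, Real.rpow_natCast, mul_assoc]
  exact h δ hδ hδ1 ι a e he hsep

/-- From tubes to boxes, at all exponents. -/
theorem boxes_of_euF (hd : 1 ≤ d) {q C : ℝ} (hq : 1 < q) (hC : 0 < C) (h : EuF d q C)
    {σ κ : ℝ} (hσ : 0 < σ) (hκ : 0 < κ) :
    ∃ D : ℝ, 1 ≤ D ∧ ∀ N : ℝ, 1 ≤ N → ∀ (ι : Type) [Fintype ι] (ω : ι → Vec d)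
      (f : ι → Fin d → Space d) (a : ι → Space d), Caps σ κ N ω f → ∀ p : ℝ≥0∞, 1 ≤ p →
      Pool.Agent.U912.Few.Iqp (D * N ^ Pool.Agent.Y249.AC.gam d (d * (q - 1)) p) N p ω f a := by
  have hd0 : (0 : ℝ) < d := by exact_mod_cast hd
  have hc0 : 0 < d * (q - 1) := mul_pos hd0 (by linarith)
  obtain ⟨E, hE, hI⟩ := Pool.Agent.Y249.AC.INT hd hc0 (tubeB_of_euF hd hC h) (min σ 1)
    (lt_min hσ one_pos) (min_le_right _ _)
  obtain ⟨D, hD, hCmp⟩ := Pool.Agent.Y249.AC.CMP (d := d) (c := d * (q - 1)) hd hc0 κ E hκ hE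
  refine ⟨D, hD, ?_⟩
  intro N hN ι _ ω f a hcaps p hp
  obtain ⟨hω, hsep, hcard, hf⟩ := hcaps
  have hN0 : 0 < N := by linarith
  have hne : Nonempty ι := by
    have h1 : 0 < κ * N ^ d := by positivity
    have h2 : (0 : ℝ) < (Fintype.card ι : ℝ) := by linarith
    have h3 : 0 < Fintype.card ι := by exact_mod_cast h2
    exact Fintype.card_pos_iff.1 h3
  have hsep' : ∀ i j, i ≠ j → min σ 1 / N ≤ ‖ω i - ω j‖ := by
    intro i j hij
    refine le_trans ?_ (hsep i j hij)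
    gcongr
    exact min_le_left _ _
  exact hCmp hN ω f hf a hcard (hI N hN ι ω f a hω hsep' hf) p hp

end Pool.Agent.U530.PB
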