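import Pool.Agent.U530.KX.Defs
import Pool.Agent.U530.KX.Quant
set_option autoImplicit false

/-! The Kakeya maximal function and the tube inequalities. -/

open MeasureTheory Set Metric
open scoped ENNReal NNReal

namespace Pool.Agent.U530.PB.Mx

/-- `ℝⁿ`. -/
abbrev E (n : ℕ) := EuclideanSpace ℝ (Fin n)

/-- The closed cylinder of length `1` and radius `δ` with centre `a` and axis direction `e`. -/
def tube {n : ℕ} (δ : ℝ) (a e : E n) : Set (E n) :=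
  {y | |inner ℝ (y - a) e| ≤ 1 / 2 ∧ ‖(y - a) - (inner ℝ (y - a) e) • e‖ ≤ δ}

/-- The Kakeya maximal function. -/
noncomputable def kakeyaMax {n : ℕ} (δ : ℝ) (f : E n → ℝ) (e : E n) : ℝ≥0∞ :=
  ⨆ a : E n, (volume (tube δ a e))⁻¹ * ∫⁻ y in tube δ a e, ‖f y‖ₑ

/-- Surface measure of the unit sphere. -/
noncomputable abbrev surf (n : ℕ) : Measure (sphere (0 : E n) 1) :=
  (volume : Measure (E n)).toSphere

/-- The norm of `f` in `L^p(ℝⁿ)`. -/
noncomputable def lpNorm {n : ℕ} (p : ℝ) (f : E n → ℝ) : ℝ≥0∞ :=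
  (∫⁻ y, ‖f y‖ₑ ^ p) ^ (1 / p)

/-- The maximal estimate `‖f*_δ‖_{L^p(S^(n-1))} ≤ C δ^(-γ) ‖f‖_{L^p(ℝⁿ)}`, for all `0 < δ < 1` and
all `f ∈ L^p(ℝⁿ)`. -/
def Strong (n : ℕ) (p γ C : ℝ) : Prop :=
  ∀ δ : ℝ, 0 < δ → δ < 1 → ∀ f : E n → ℝ, MemLp f (ENNReal.ofReal p) volume →
    (∫⁻ e, kakeyaMax δ f e ^ p ∂surf n) ^ (1 / p) ≤ ENNReal.ofReal (C * δ ^ (-γ)) * lpNorm p f

/-- The weak type estimate from `L^p` to `L^((n-1)p')`, `p' = p / (p - 1)`, without a loss: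
`|{e : f*_δ(e) > l}| ≤ (C δ^(-(n/p - 1)) ‖f‖_p / l)^((n-1)p')`, for all `0 < δ < 1`, all
`f ∈ L^p(ℝⁿ)` and all `l > 0`. -/
def Weak (n : ℕ) (p C : ℝ) : Prop :=
  ∀ δ : ℝ, 0 < δ → δ < 1 → ∀ f : E n → ℝ, MemLp f (ENNReal.ofReal p) volume →
    ∀ l : ℝ, 0 < l → surf n {e | ENNReal.ofReal l < kakeyaMax δ f e} ≤
      (ENNReal.ofReal (C * δ ^ (-((n : ℝ) / p - 1)) / l) * lpNorm p f) ^
        (((n : ℝ) - 1) * (p / (p - 1)))

/-- The tube inequality at the exponent `q` with the factor `C δ^(-γ)`: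
`‖∑_T 1_T‖_q ≤ C δ^(-γ) δ^((n-1)/q) (#T)^(1 - 1/(q(n-1)))`, for all `0 < δ < 1` and all finite
families of `δ`-tubes with `δ`-separated orientations. -/
def Tubes (n : ℕ) (q γ C : ℝ) : Prop :=
  ∀ δ : ℝ, 0 < δ → δ < 1 → ∀ (ι : Type) [Fintype ι] (a e : ι → E n), (∀ i, ‖e i‖ = 1) →
    (∀ i j, i ≠ j → δ ≤ ‖e i - e j‖) →
    (∫⁻ x, (∑ i, (tube δ (a i) (e i)).indicator (fun _ => (1 : ℝ≥0∞)) x) ^ q) ^ (1 / q) ≤
      ENNReal.ofReal (C * δ ^ (-γ) * δ ^ (((n : ℝ) - 1) / q) *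
        (Fintype.card ι : ℝ) ^ (1 - 1 / (q * ((n : ℝ) - 1))))

/-- The three estimates without a loss at the exponent `p`: the strong type estimate, the
off-diagonal weak type estimate and the tube inequality at the dual exponent. -/
def NoLoss (n : ℕ) (p : ℝ) : Prop :=
  (∃ C : ℝ, 0 < C ∧ Strong n p ((n : ℝ) / p - 1) C) ∧ (∃ C : ℝ, 0 < C ∧ Weak n p C) ∧
    ∃ C : ℝ, 0 < C ∧ Tubes n (p / (p - 1)) 0 C
section proofs

open Pool.Agent.Y254 (mult)
open Pool.Agent.W46.HM (kmax)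
open Pool.Agent.Y244.HM (WeakP StrongP)
open Pool.Agent.Y244.WR (TubeQ weakQ)
open Pool.Agent.Y254.EL (KM EuL EuF sg crit_of_sub euL_of_KM euF_of_euL euL_of_euF dual_small
  triv_bound kmax_pow card_dirs)
open Pool.Agent.Y254 (Cv Cv_pos)
open Pool.Agent.U530.KX (root_le pow_le of_memLp kmax_congr real_rep euF_of_euL_quant)

variable {d : ℕ}

theorem km_of_strong {ε C : ℝ} (hε : 0 < ε) (hC : 0 < C)
    (h : Strong (d + 1) ((d : ℝ) + 1) (ε / (d + 1)) C) :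
    KM d ε (C ^ ((d : ℝ) + 1)) := by
  have hd1 : (0 : ℝ) < (d : ℝ) + 1 := by positivity
  intro δ hδ hδ1 f hf hft
  have hK : 0 < C * δ ^ (-(ε / ((d : ℝ) + 1))) := by positivity
  have e1 : C ^ ((d : ℝ) + 1) * δ ^ (-ε) = (C * δ ^ (-(ε / ((d : ℝ) + 1)))) ^ ((d : ℝ) + 1) := by
    rw [Real.mul_rpow hC.le (by positivity), ← Real.rpow_mul hδ.le]
    congr 2
    field_simp
  rw [e1]
  refine of_memLp hd1 (by positivity) (fun g hg => ?_) f hf.aemeasurable hft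
  exact pow_le hd1 hK.le (h δ hδ hδ1 g hg)

theorem strong_of_km {p γ K : ℝ} (hp : 0 < p) (hK : 0 < K)
    (h : ∀ δ : ℝ, 0 < δ → δ < 1 → ∀ f : E (d + 1) → ℝ≥0∞, AEMeasurable f volume →
      ∫⁻ e, kmax δ f (e : E (d + 1)) ^ p ∂(sg d) ≤
        ENNReal.ofReal (K * δ ^ (-(γ * p))) * ∫⁻ y, f y ^ p) :
    Strong (d + 1) p γ (K ^ (1 / p)) := by
  intro δ hδ hδ1 f hf
  have h1 := root_le hp (by positivity) (h δ hδ hδ1 (fun y => ‖f y‖ₑ)
    hf.1.aemeasurable.enorm)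
  have e1 : (K * δ ^ (-(γ * p))) ^ (1 / p) = K ^ (1 / p) * δ ^ (-γ) := by
    rw [Real.mul_rpow hK.le (by positivity), ← Real.rpow_mul hδ.le]
    congr 2
    field_simp
  rw [e1] at h1
  exact h1

theorem tubes_of_int {q γ K : ℝ} (hd : 1 ≤ d) (hq : 0 < q) (hK : 0 < K)
    (h : ∀ δ : ℝ, 0 < δ → δ < 1 → ∀ (ι : Type) [Fintype ι] (a e : ι → E (d + 1)),
      (∀ i, ‖e i‖ = 1) → (∀ i j, i ≠ j → δ ≤ ‖e i - e j‖) →
      ∫⁻ x, mult (fun i => Pool.Agent.W46.KK.tube δ (a i) (e i)) x ^ q ≤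
        ENNReal.ofReal (K * (δ ^ (-(γ * q)) *
          (δ ^ d * (Fintype.card ι : ℝ) ^ (q - 1 / (d : ℝ)))))) :
    Tubes (d + 1) q γ (K ^ (1 / q)) := by
  have hd0 : (0 : ℝ) < d := by exact_mod_cast hd
  intro δ hδ hδ1 ι _ a e he hsep
  have h1 := ENNReal.rpow_le_rpow (h δ hδ hδ1 ι a e he hsep) (by positivity : 0 ≤ 1 / q)
  have hN : (0 : ℝ) ≤ Fintype.card ι := Nat.cast_nonneg _
  have e1 : (K * (δ ^ (-(γ * q)) * (δ ^ d * (Fintype.card ι : ℝ) ^ (q - 1 / (d : ℝ))))) ^ (1 / q) =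
      K ^ (1 / q) * δ ^ (-γ) * δ ^ ((((d + 1 : ℕ) : ℝ) - 1) / q) *
        (Fintype.card ι : ℝ) ^ (1 - 1 / (q * (((d + 1 : ℕ) : ℝ) - 1))) := by
    have e2 : (((d + 1 : ℕ) : ℝ) - 1) = d := by push_cast; ring
    rw [e2, Real.mul_rpow hK.le (by positivity), Real.mul_rpow (by positivity) (by positivity),
      Real.mul_rpow (by positivity) (by positivity), ← Real.rpow_mul hδ.le, ← Real.rpow_mul hN,
      ← Real.rpow_natCast, ← Real.rpow_mul hδ.le]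
    have e3 : -(γ * q) * (1 / q) = -γ := by field_simp
    have e4 : (d : ℝ) * (1 / q) = d / q := by ring
    have e5 : (q - 1 / (d : ℝ)) * (1 / q) = 1 - 1 / (q * d) := by field_simp
    rw [e3, e4, e5]
    ring
  rw [ENNReal.ofReal_rpow_of_nonneg (by positivity) (by positivity), e1] at h1
  exact h1

theorem int_of_tubes {q γ C : ℝ} (hd : 1 ≤ d) (hq : 0 < q) (hC : 0 < C)
    (h : Tubes (d + 1) q γ C) (δ : ℝ) (hδ : 0 < δ) (hδ1 : δ < 1) (ι : Type) [Fintype ι]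
    (a e : ι → E (d + 1)) (he : ∀ i, ‖e i‖ = 1) (hsep : ∀ i j, i ≠ j → δ ≤ ‖e i - e j‖) :
    ∫⁻ x, mult (fun i => Pool.Agent.W46.KK.tube δ (a i) (e i)) x ^ q ≤
      ENNReal.ofReal (C ^ q * (δ ^ (-(γ * q)) *
        (δ ^ d * (Fintype.card ι : ℝ) ^ (q - 1 / (d : ℝ))))) := by
  have hd0 : (0 : ℝ) < d := by exact_mod_cast hd
  have h1 := ENNReal.rpow_le_rpow (h δ hδ hδ1 ι a e he hsep) hq.le
  have hN : (0 : ℝ) ≤ Fintype.card ι := Nat.cast_nonneg _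
  rw [← ENNReal.rpow_mul, one_div, inv_mul_cancel₀ hq.ne', ENNReal.rpow_one,
    ENNReal.ofReal_rpow_of_nonneg (by positivity) hq.le] at h1
  have e1 : (C * δ ^ (-γ) * δ ^ ((((d + 1 : ℕ) : ℝ) - 1) / q) *
        (Fintype.card ι : ℝ) ^ (1 - 1 / (q * (((d + 1 : ℕ) : ℝ) - 1)))) ^ q =
      C ^ q * (δ ^ (-(γ * q)) * (δ ^ d * (Fintype.card ι : ℝ) ^ (q - 1 / (d : ℝ)))) := by
    have e2 : (((d + 1 : ℕ) : ℝ) - 1) = d := by push_cast; ring
    rw [e2, Real.mul_rpow (by positivity) (by positivity),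
      Real.mul_rpow (by positivity) (by positivity),
      Real.mul_rpow hC.le (by positivity), ← Real.rpow_mul hδ.le, ← Real.rpow_mul hδ.le,
      ← Real.rpow_mul hN]
    have e3 : (d : ℝ) / q * q = d := by field_simp
    have e5 : (1 - 1 / (q * (d : ℝ))) * q = q - 1 / d := by field_simp
    rw [e3, e5, Real.rpow_natCast, neg_mul]
    ring
  rw [e1] at h1
  exact h1

theorem weak_of_weakP {p : ℝ} (hd : 1 ≤ d) (hp1 : 1 < p) (h : WeakP d ((d : ℝ) / (p - 1))) :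
    ∃ C : ℝ, 0 < C ∧ Weak (d + 1) p C := by
  have hd0 : (0 : ℝ) < d := by exact_mod_cast hd
  have hp10 : 0 < p - 1 := by linarith
  have hp0 : 0 < p := by linarith
  obtain ⟨K, hK, h⟩ := h
  set c : ℝ := (d : ℝ) / (p - 1) with hc
  have hc0 : 0 < c := by positivity
  have hpc : 1 + (d : ℝ) / c = p := by rw [hc]; field_simp; ring
  set Q : ℝ := (d : ℝ) * (p / (p - 1)) with hQ
  have hQ0 : 0 < Q := by positivity
  have hQc : Q = p * c := by rw [hQ, hc]; ring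
  have hQdc : Q = d + c := by rw [hQ, hc]; field_simp; ring
  refine ⟨K ^ (1 / Q), by positivity, ?_⟩
  intro δ hδ hδ1 f hf l hl
  have h1 := h δ hδ hδ1 (fun y => ‖f y‖ₑ) hf.1.aemeasurable.enorm l hl
  rw [hpc] at h1
  refine h1.trans (le_of_eq ?_)
  have e2 : (((d + 1 : ℕ) : ℝ) - 1) = d := by push_cast; ring
  rw [e2, ← hQ, ENNReal.mul_rpow_of_nonneg _ _ hQ0.le,
    ENNReal.ofReal_rpow_of_nonneg (by positivity) hQ0.le]
  congr 1
  · congr 1
    rw [Real.div_rpow (by positivity) hl.le, Real.mul_rpow (by positivity) (by positivity),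
      ← Real.rpow_mul hK.le, ← Real.rpow_mul hδ.le, one_div, inv_mul_cancel₀ hQ0.ne',
      Real.rpow_one, Real.rpow_neg hl.le, ← hQdc, div_eq_mul_inv]
    congr 3
    rw [hQc, hc]
    push_cast
    field_simp
    ring
  · unfold lpNorm
    rw [← ENNReal.rpow_mul]
    congr 1
    rw [hQc]
    field_simp

theorem weakP_of_weak {p C : ℝ} (hd : 1 ≤ d) (hp1 : 1 < p) (hC : 0 < C)
    (h : Weak (d + 1) p C) : WeakP d ((d : ℝ) / (p - 1)) := by
  have hd0 : (0 : ℝ) < d := by exact_mod_cast hd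
  have hp10 : 0 < p - 1 := by linarith
  have hp0 : 0 < p := by linarith
  set c : ℝ := (d : ℝ) / (p - 1) with hc
  have hc0 : 0 < c := by positivity
  have hpc : 1 + (d : ℝ) / c = p := by rw [hc]; field_simp; ring
  set Q : ℝ := (d : ℝ) * (p / (p - 1)) with hQ
  have hQ0 : 0 < Q := by positivity
  have hQc : Q = p * c := by rw [hQ, hc]; ring
  have hQdc : Q = d + c := by rw [hQ, hc]; field_simp; ring
  refine ⟨C ^ Q, by positivity, ?_⟩
  intro δ hδ hδ1 f hf l hl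
  rw [hpc]
  by_cases hI : ∫⁻ y, f y ^ p = ∞
  · rw [hI, ENNReal.top_rpow_of_pos hc0, ENNReal.mul_top (by
      rw [ne_eq, ENNReal.ofReal_eq_zero, not_le]; positivity)]
    exact le_top
  obtain ⟨hm, hae⟩ := real_rep hp0 hf hI
  have h1 := h δ hδ hδ1 _ hm l hl
  have e0 : ∀ e : E (d + 1), kakeyaMax δ (fun y => (f y).toReal) e = kmax δ f e :=
    fun e => kmax_congr hae e
  simp only [e0] at h1
  refine h1.trans (le_of_eq ?_)
  have e2 : (((d + 1 : ℕ) : ℝ) - 1) = d := by push_cast; ring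
  rw [e2, ← hQ, ENNReal.mul_rpow_of_nonneg _ _ hQ0.le,
    ENNReal.ofReal_rpow_of_nonneg (by positivity) hQ0.le]
  congr 1
  · congr 1
    rw [Real.div_rpow (by positivity) hl.le, Real.mul_rpow (by positivity) (by positivity),
      ← Real.rpow_mul hδ.le, Real.rpow_neg hl.le, ← hQdc, div_eq_mul_inv]
    congr 3
    rw [hQc, hc]
    push_cast
    field_simp
    ring
  · unfold lpNorm
    rw [← ENNReal.rpow_mul]
    have e3 : ∫⁻ y, ‖(f y).toReal‖ₑ ^ p = ∫⁻ y, f y ^ p := by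
      refine lintegral_congr_ae ?_
      filter_upwards [hae] with y hy
      rw [hy]
    rw [e3]
    congr 1
    rw [hQc]
    field_simp

theorem tubeQ_of_tubes {c C : ℝ} (hd : 1 ≤ d) (hc : 0 < c) (hC : 0 < C)
    (h : Tubes (d + 1) (1 + c / d) 0 C) : TubeQ d (1 + c / d) := by
  have hd0 : (0 : ℝ) < d := by exact_mod_cast hd
  have hq : 0 < 1 + c / (d : ℝ) := by positivity
  refine ⟨C ^ (1 + c / (d : ℝ)), by positivity, ?_⟩
  intro δ hδ hδ1 ι _ a e he hsep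
  have h2 := int_of_tubes hd hq hC h δ hδ hδ1 ι a e he hsep
  have e1 : C ^ (1 + c / (d : ℝ)) * δ ^ (d : ℝ) *
        (Fintype.card ι : ℝ) ^ (1 + c / (d : ℝ) - 1 / (d : ℝ)) =
      C ^ (1 + c / (d : ℝ)) * (δ ^ (-(0 * (1 + c / (d : ℝ)))) *
        (δ ^ d * (Fintype.card ι : ℝ) ^ (1 + c / (d : ℝ) - 1 / (d : ℝ)))) := by
    rw [Real.rpow_natCast, zero_mul, neg_zero, Real.rpow_zero]
    ring
  rw [e1]
  exact h2

theorem main (hd : 2 ≤ d) : List.TFAE [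
    ∀ ε : ℝ, 0 < ε → ∃ C : ℝ, 0 < C ∧ Strong (d + 1) ((d : ℝ) + 1) ε C,
    ∀ ε : ℝ, 0 < ε → ∃ C : ℝ, 0 < C ∧ Tubes (d + 1) (1 + 1 / (d : ℝ)) ε C,
    ∀ p : ℝ, 1 < p → p < (d : ℝ) + 1 →
      ∃ C : ℝ, 0 < C ∧ Strong (d + 1) p (((d : ℝ) + 1) / p - 1) C,
    ∀ p : ℝ, 1 < p → p < (d : ℝ) + 1 → ∃ C : ℝ, 0 < C ∧ Weak (d + 1) p C,
    ∀ q : ℝ, 1 + 1 / (d : ℝ) < q → ∃ C : ℝ, 0 < C ∧ Tubes (d + 1) q 0 C] := by
  have hdR : (2 : ℝ) ≤ d := by exact_mod_cast hd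
  have hd0 : (0 : ℝ) < d := by linarith
  have hd1 : 1 ≤ d := by omega
  have hinv : 0 < 1 / (d : ℝ) := by positivity
  tfae_have 1 → 2 := by
    intro h ε hε
    set q0 : ℝ := 1 + 1 / (d : ℝ) with hq0
    have hq00 : 0 < q0 := by linarith
    obtain ⟨C, hC, hE⟩ := euL_of_KM hd1 (fun η hη => by
      obtain ⟨C, hC, hS⟩ := h (η / (d + 1)) (by positivity)
      exact ⟨C ^ ((d : ℝ) + 1), by positivity, km_of_strong hη hC hS⟩) (ε * q0) (by positivity)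
    refine ⟨(C + 1) ^ (1 / q0), by positivity,
      tubes_of_int hd1 hq00 (by positivity) ?_⟩
    intro δ hδ hδ1 ι _ a e he hsep
    refine (hE δ hδ hδ1 ι a e he hsep).trans (ENNReal.ofReal_le_ofReal ?_)
    gcongr
    linarith
  tfae_have 2 → 5 := by
    intro h q hq
    have hq0 : 0 < q := by linarith
    obtain ⟨C, hC, hF⟩ := euF_of_euL hd (le_refl (1 + 1 / (d : ℝ))) hq (fun η hη => by
      obtain ⟨C, hC, hT⟩ := h (η / (1 + 1 / (d : ℝ))) (by positivity)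
      refine ⟨C ^ (1 + 1 / (d : ℝ)), by positivity, ?_⟩
      intro δ hδ hδ1 ι _ a e he hsep
      have h1 := int_of_tubes hd1 (by positivity) hC hT δ hδ hδ1 ι a e he hsep
      have e1 : η / (1 + 1 / (d : ℝ)) * (1 + 1 / (d : ℝ)) = η := by field_simp
      rw [e1] at h1
      exact h1)
    refine ⟨C ^ (1 / q), by positivity, tubes_of_int hd1 hq0 hC ?_⟩
    intro δ hδ hδ1 ι _ a e he hsep
    refine (hF δ hδ hδ1 ι a e he hsep).trans (le_of_eq ?_)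
    rw [zero_mul, neg_zero, Real.rpow_zero, one_mul]
  tfae_have 5 → 4 := by
    intro h p hp1 hpn
    have hp10 : 0 < p - 1 := by linarith
    have hc : 1 < (d : ℝ) / (p - 1) := by rw [lt_div_iff₀ hp10]; linarith
    obtain ⟨C, hC, hT⟩ := h (1 + (d : ℝ) / (p - 1) / d) (by
      have : 1 / (d : ℝ) < (d : ℝ) / (p - 1) / d := by gcongr
      linarith)
    exact weak_of_weakP hd1 hp1 (weakQ hd1 (by linarith)
      (tubeQ_of_tubes hd1 (by linarith) hC hT) Pool.Agent.W131.HM.CAP Pool.Agent.W131.HM.VOL)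
  tfae_have 4 → 3 := by
    intro h p hp1 hpn
    have hp10 : 0 < p - 1 := by linarith
    have hp0 : 0 < p := by linarith
    have hc : 1 < (d : ℝ) / (p - 1) := by rw [lt_div_iff₀ hp10]; linarith
    have hpc : 1 + (d : ℝ) / ((d : ℝ) / (p - 1)) = p := by field_simp; ring
    obtain ⟨C, hC, hW⟩ := h p hp1 hpn
    obtain ⟨K, hK, hS⟩ := Pool.Agent.Y244.HM.strongP hd1 hc (weakP_of_weak hd1 hp1 hC hW)
    rw [hpc] at hS
    refine ⟨K ^ (1 / p), by positivity, strong_of_km hp0 hK ?_⟩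
    intro δ hδ hδ1 f hf
    have e1 : -((((d : ℝ) + 1) / p - 1) * p) = -((d : ℝ) - (d : ℝ) / ((d : ℝ) / (p - 1))) := by
      field_simp
      ring
    rw [e1]
    exact hS δ hδ hδ1 f hf
  tfae_have 3 → 1 := by
    intro h ε hε
    set c : ℝ := 1 + ε with hc
    have hc1 : 1 < c := by linarith
    have hc0 : 0 < c := by linarith
    have hdc : (d : ℝ) / c < d := div_lt_self hd0 hc1
    have hdc0 : 0 < (d : ℝ) / c := by positivity
    set p : ℝ := 1 + (d : ℝ) / c with hp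
    have hp0 : 0 < p := by positivity
    obtain ⟨C, hC, hS⟩ := h p (by linarith) (by linarith)
    have hn0 : (0 : ℝ) < (d : ℝ) + 1 := by positivity
    refine ⟨(C ^ p) ^ (1 / ((d : ℝ) + 1)), by positivity, ?_⟩
    intro δ hδ hδ1 f hf
    have hKp : 0 < C * δ ^ (-(((d : ℝ) + 1) / p - 1)) := by positivity
    have e1 : (C * δ ^ (-(((d : ℝ) + 1) / p - 1))) ^ p =
        C ^ p * δ ^ (-((d : ℝ) - (d : ℝ) / c)) := by
      rw [Real.mul_rpow hC.le (by positivity), ← Real.rpow_mul hδ.le]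
      have e3 : -(((d : ℝ) + 1) / p - 1) * p = -((d : ℝ) + 1 - p) := by field_simp
      rw [e3, hp]
      congr 2
      ring
    have hsub : ∀ g : E (d + 1) → ℝ≥0∞, AEMeasurable g volume → (∀ x, g x ≠ ∞) →
        ∫⁻ e : sphere (0 : E (d + 1)) 1, kmax δ g e ^ (1 + (d : ℝ) / c) ∂(sg d) ≤
        ENNReal.ofReal (C ^ p * δ ^ (-((d : ℝ) - (d : ℝ) / c))) *
          ∫⁻ y, g y ^ (1 + (d : ℝ) / c) := by
      intro g hg hgt
      rw [← e1]
      refine of_memLp hp0 (by positivity) (fun g hg => ?_) g hg hgt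
      exact pow_le hp0 hKp.le (hS δ hδ hδ1 g hg)
    have h1 := crit_of_sub hc1 hd1 hδ hδ1 hsub (fun y => ‖f y‖ₑ) hf.1.aemeasurable.enorm
      (fun x => enorm_ne_top)
    have h2 := root_le hn0 (by positivity) h1
    refine h2.trans ?_
    unfold lpNorm
    gcongr
    rw [Real.mul_rpow (by positivity) (by positivity), ← Real.rpow_mul hδ.le]
    gcongr ?_ * ?_
    apply Real.rpow_le_rpow_of_exponent_ge hδ hδ1.le
    rw [neg_mul, neg_le_neg_iff, mul_one_div, div_le_iff₀ hn0]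
    have h3 : (d : ℝ) - (d : ℝ) / c = d * ε / c := by rw [hc]; field_simp; ring
    rw [h3, div_le_iff₀ hc0]
    have h4 : (d : ℝ) * ε ≤ ε * ((d : ℝ) + 1) := by nlinarith
    have h5 : ε * ((d : ℝ) + 1) ≤ ε * ((d : ℝ) + 1) * c := le_mul_of_one_le_right (by positivity) hc1.le
    linarith
  tfae_finish


theorem tubes_of_euF {q C : ℝ} (hd : 1 ≤ d) (hq : 0 < q) (hC : 0 < C) (h : EuF d q C) :
    Tubes (d + 1) q 0 (C ^ (1 / q)) := by
  refine tubes_of_int hd hq hC ?_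
  intro δ hδ hδ1 ι _ a e he hsep
  refine (h δ hδ hδ1 ι a e he hsep).trans (le_of_eq ?_)
  rw [zero_mul, neg_zero, Real.rpow_zero, one_mul]


/-- From the tube inequality without a loss to the maximal function. -/
theorem noLoss_of_tubes {p C : ℝ} (hd : 1 ≤ d) (hp1 : 1 < p) (hpn : p < (d : ℝ) + 1) (hC : 0 < C)
    (h : Tubes (d + 1) (p / (p - 1)) 0 C) : NoLoss (d + 1) p := by
  have hd0 : (0 : ℝ) < d := by exact_mod_cast hd
  have hp10 : 0 < p - 1 := by linarith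
  have hp0 : 0 < p := by linarith
  have hc : 1 < (d : ℝ) / (p - 1) := by rw [lt_div_iff₀ hp10]; linarith
  have hpc : 1 + (d : ℝ) / ((d : ℝ) / (p - 1)) = p := by field_simp; ring
  have hq : p / (p - 1) = 1 + (d : ℝ) / (p - 1) / d := by field_simp; ring
  have hT : TubeQ d (1 + (d : ℝ) / (p - 1) / d) :=
    tubeQ_of_tubes hd (by linarith) hC (by rw [← hq]; exact h)
  have hW := weakQ hd (by linarith) hT Pool.Agent.W131.HM.CAP Pool.Agent.W131.HM.VOL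
  refine ⟨?_, weak_of_weakP hd hp1 hW, C, hC, h⟩
  obtain ⟨K, hK, hS⟩ := Pool.Agent.Y244.HM.strongP hd hc hW
  rw [hpc] at hS
  refine ⟨K ^ (1 / p), by positivity, strong_of_km hp0 hK ?_⟩
  intro δ hδ hδ1 f hf
  have e1 : -((((d + 1 : ℕ) : ℝ) / p - 1) * p) = -((d : ℝ) - (d : ℝ) / ((d : ℝ) / (p - 1))) := by
    push_cast
    field_simp
    ring
  rw [e1]
  exact hS δ hδ hδ1 f hf


end proofs

end Pool.Agent.U530.PB.Mx
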