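import Pool.Agent.U530.PB.Cnt
import Pool.Agent.Y254.EL.Dual3
set_option autoImplicit false

/-! Replication: from full families of slope tubes to all families. -/

open MeasureTheory Set Filter Topology Metric
open scoped ENNReal NNReal

namespace Pool.Agent.U530.PB

open Pool.Agent.Y254 (mult mult_meas)
open Pool.Agent.Y254.EL (Pt tb Sep tb_meas exists_coord LoB)

variable {d : ℕ}

/-- The shear preserves integrals. -/
theorem shear_lint (h : Fin d → ℝ) {g : Pt d → ℝ≥0∞} (hg : Measurable g) :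
    ∫⁻ z : Pt d, g (z.1, z.2 - z.1 • h) = ∫⁻ z, g z := by
  have hm : Measurable fun z : Pt d => ((z.1, z.2 - z.1 • h) : Pt d) := by
    have : Continuous fun z : Pt d => ((z.1, z.2 - z.1 • h) : Pt d) := by fun_prop
    exact this.measurable
  have e1 : ∫⁻ z : Pt d, g (z.1, z.2 - z.1 • h) = ∫⁻ t : ℝ, ∫⁻ x : Fin d → ℝ, g (t, x - t • h) := by
    rw [Measure.volume_eq_prod]
    exact lintegral_prod _ (hg.comp hm).aemeasurable
  have e2 : ∫⁻ z : Pt d, g z = ∫⁻ t : ℝ, ∫⁻ x : Fin d → ℝ, g (t, x) := by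
    rw [Measure.volume_eq_prod]
    exact lintegral_prod _ hg.aemeasurable
  rw [e1, e2]
  refine lintegral_congr fun t => ?_
  exact lintegral_sub_right_eq_self (fun x : Fin d → ℝ => g (t, x)) (t • h)

theorem mult_shear {ι : Type} [Fintype ι] (R r : ℝ) (b : ι → ℝ) (P v : ι → Fin d → ℝ)
    (h : Fin d → ℝ) (z : Pt d) :
    mult (fun i => tb R r (b i) (P i) (v i + h)) z =
      mult (fun i => tb R r (b i) (P i) (v i)) (z.1, z.2 - z.1 • h) := by
  unfold mult
  refine Finset.sum_congr rfl fun i _ => ?_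
  have : z ∈ tb R r (b i) (P i) (v i + h) ↔ ((z.1, z.2 - z.1 • h) : Pt d) ∈ tb R r (b i) (P i) (v i) := by
    unfold tb
    simp only [Set.mem_ofPred_eq]
    have e : z.2 - P i - z.1 • (v i + h) = z.2 - z.1 • h - P i - z.1 • v i := by
      rw [smul_add]; abel
    rw [e]
  by_cases hz : z ∈ tb R r (b i) (P i) (v i + h)
  · rw [indicator_of_mem hz, indicator_of_mem (this.1 hz)]
    rfl
  · rw [indicator_of_notMem hz, indicator_of_notMem (fun h => hz (this.2 h))]

theorem sum_rpow_le' {α : Type} (s : Finset α) (f : α → ℝ≥0∞) {p : ℝ} (hp : 1 ≤ p) :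
    ∑ a ∈ s, f a ^ p ≤ (∑ a ∈ s, f a) ^ p := by
  classical
  induction s using Finset.induction_on with
  | empty => simp
  | insert a s ha ih =>
    rw [Finset.sum_insert ha, Finset.sum_insert ha]
    refine (add_le_add le_rfl ih).trans ?_
    exact ENNReal.add_rpow_le_rpow_add _ _ hp

/-- the key step: many copies -/
theorem copies {R p B δ : ℝ} (hp1 : 1 ≤ p) (hδ : 0 < δ)
    (hfull : ∀ (ι : Type) [Fintype ι] (b : ι → ℝ) (P v : ι → Fin d → ℝ), (∀ i, ‖v i‖ ≤ 2) →
      Sep δ v → ∫⁻ x, mult (fun i => tb R (R * δ) (b i) (P i) (v i)) x ^ p ≤ ENNReal.ofReal B)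
    {ι : Type} [Fintype ι] (b : ι → ℝ) (P v : ι → Fin d → ℝ)
    {K L : ℕ} (h : Fin K → Fin d → ℤ) (hn : ∀ k i, ‖v i + fun j => δ * (h k j : ℝ)‖ ≤ 2)
    (hmul : ∀ c : Fin d → ℤ, (Finset.univ.filter fun x : Fin K × ι =>
      (fun j => ⌊v x.2 j / δ⌋ + h x.1 j) = c).card ≤ L) :
    (K : ℝ≥0∞) * ∫⁻ x, mult (fun i => tb R (R * δ) (b i) (P i) (v i)) x ^ p ≤
      ENNReal.ofReal (((L : ℝ) * 2 ^ d) ^ p * B) := by
  classical
  set cell : Fin K × ι → Fin d → ℤ := fun x j => ⌊v x.2 j / δ⌋ + h x.1 j with hcell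
  obtain ⟨r, hr⟩ := exists_rank cell hmul
  set u : Fin K × ι → Fin d → ℝ := fun x => v x.2 + fun j => δ * (h x.1 j : ℝ) with hu
  set cl : Fin K × ι → Fin L × (Fin d → Bool) := fun x => (r x, fun j => decide (Even (cell x j)))
    with hcl
  have hcellu : ∀ x j, (cell x j : ℝ) ≤ u x j / δ ∧ u x j / δ < cell x j + 1 := by
    intro x j
    have e : u x j / δ = v x.2 j / δ + h x.1 j := by
      show (v x.2 j + δ * (h x.1 j : ℝ)) / δ = _
      field_simp
    have h1 := Int.floor_le (v x.2 j / δ)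
    have h2 := Int.lt_floor_add_one (v x.2 j / δ)
    rw [e, hcell]
    push_cast
    constructor <;> linarith
  have hsep : ∀ γ, Sep δ (fun x : {x // cl x = γ} => u x.1) := by
    rintro γ ⟨x, hx⟩ ⟨y, hy⟩ hne
    have hxy : x ≠ y := fun h => hne (Subtype.ext h)
    have hc : cl x = cl y := hx.trans hy.symm
    have hr' : r x = r y := congrArg Prod.fst hc
    have hcne : cell x ≠ cell y := fun h => hxy (hr _ _ h hr')
    obtain ⟨j, hj⟩ := Function.ne_iff.1 hcne
    have hpar : Even (cell x j) ↔ Even (cell y j) := by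
      have h1 : decide (Even (cell x j)) = decide (Even (cell y j)) :=
        congrFun (congrArg Prod.snd hc) j
      exact decide_eq_decide.1 h1
    have h2 : (2 : ℤ) ≤ |cell x j - cell y j| := by
      have h3 : Even (cell x j - cell y j) := Int.even_sub.2 hpar
      have h4 : cell x j - cell y j ≠ 0 := sub_ne_zero.2 hj
      obtain ⟨q, hq⟩ := h3
      have hq0 : q ≠ 0 := by
        rintro rfl
        simp at hq
        exact hj (by omega)
      rw [hq, ← two_mul, abs_mul]
      have := Int.one_le_abs hq0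
      have h22 : |(2 : ℤ)| = 2 := rfl
      rw [h22]
      linarith
    have h5 : (2 : ℝ) ≤ |(cell x j : ℝ) - cell y j| := by exact_mod_cast h2
    obtain ⟨a1, a2⟩ := hcellu x j
    obtain ⟨b1, b2⟩ := hcellu y j
    have h6 : 1 ≤ |u x j / δ - u y j / δ| := by
      rcases le_abs'.1 h5 with h7 | h7
      · refine le_trans ?_ (neg_le_abs _)
        linarith
      · refine le_trans ?_ (le_abs_self _)
        linarith
    have h8 : |u x j / δ - u y j / δ| = |u x j - u y j| / δ := by
      rw [← sub_div, abs_div, abs_of_pos hδ]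
    rw [h8, le_div_iff₀ hδ, one_mul] at h6
    refine h6.trans ?_
    have := norm_le_pi_norm (u x - u y) j
    rwa [Pi.sub_apply, Real.norm_eq_abs] at this
  -- the classes
  set F : Fin K × ι → Pt d → ℝ≥0∞ := fun x z =>
    (tb R (R * δ) (b x.2) (P x.2) (u x)).indicator 1 z with hF
  have hFm : ∀ x, Measurable (F x) := fun x => measurable_one.indicator (tb_meas _ _ _ _ _)
  have hclass : ∀ γ, ∫⁻ z, (∑ x : {x // cl x = γ}, F x.1 z) ^ p ≤ ENNReal.ofReal B := by
    intro γ
    exact hfull {x // cl x = γ} (fun x => b x.1.2) (fun x => P x.1.2) (fun x => u x.1)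
      (fun x => hn x.1.1 x.1.2) (hsep γ)
  have hsumcl : ∀ z, ∑ x, F x z = ∑ γ, ∑ x : {x // cl x = γ}, F x.1 z := by
    intro z
    rw [← Finset.sum_fiberwise Finset.univ cl (fun x => F x z)]
    refine Finset.sum_congr rfl fun γ _ => ?_
    exact Finset.sum_subtype _ (fun x => by simp) (fun x => F x z)
  have hcard : Fintype.card (Fin L × (Fin d → Bool)) = L * 2 ^ d := by
    rw [Fintype.card_prod, Fintype.card_fin, Fintype.card_fun, Fintype.card_bool, Fintype.card_fin]
  have hup : ∫⁻ z, (∑ x, F x z) ^ p ≤ ENNReal.ofReal (((L : ℝ) * 2 ^ d) ^ p * B) := by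
    rcases Nat.eq_zero_or_pos (L * 2 ^ d) with h0 | h0
    · -- no classes, hence no pairs
      have hemp : IsEmpty (Fin K × ι) := by
        by_contra hne
        rw [not_isEmpty_iff] at hne
        obtain ⟨x⟩ := hne
        have : 0 < Fintype.card (Fin L × (Fin d → Bool)) := Fintype.card_pos_iff.2 ⟨cl x⟩
        rw [hcard] at this
        omega
      have e0 : ∀ z, (∑ x, F x z) ^ p = 0 := by
        intro z
        rw [Finset.univ_eq_empty, Finset.sum_empty, ENNReal.zero_rpow_of_pos (by linarith)]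
      simp only [e0, lintegral_zero]
      exact zero_le
    · have hG0 : (0 : ℝ) < (L : ℝ) * 2 ^ d := by exact_mod_cast h0
      have hGe : ((Fintype.card (Fin L × (Fin d → Bool)) : ℕ) : ℝ≥0∞) =
          ENNReal.ofReal ((L : ℝ) * 2 ^ d) := by
        rw [hcard, ← ENNReal.ofReal_natCast]
        push_cast
        rfl
      calc ∫⁻ z, (∑ x, F x z) ^ p
          ≤ ∫⁻ z, ENNReal.ofReal ((L : ℝ) * 2 ^ d) ^ (p - 1) *
              ∑ γ, (∑ x : {x // cl x = γ}, F x.1 z) ^ p := by
            refine lintegral_mono fun z => ?_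
            simp only
            rw [hsumcl z]
            have h6 := ENNReal.rpow_sum_le_const_mul_sum_rpow (s := Finset.univ)
              (f := fun γ => ∑ x : {x // cl x = γ}, F x.1 z) hp1
            rw [Finset.card_univ, hGe] at h6
            exact h6
        _ = ENNReal.ofReal ((L : ℝ) * 2 ^ d) ^ (p - 1) *
              ∑ γ, ∫⁻ z, (∑ x : {x // cl x = γ}, F x.1 z) ^ p := by
            rw [lintegral_const_mul', lintegral_finsetSum]
            · intro γ _
              exact (Finset.measurable_fun_sum _ fun x _ => hFm x.1).pow_const _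
            · exact ENNReal.rpow_ne_top_of_nonneg (by linarith) ENNReal.ofReal_ne_top
        _ ≤ ENNReal.ofReal ((L : ℝ) * 2 ^ d) ^ (p - 1) *
              ∑ _γ : Fin L × (Fin d → Bool), ENNReal.ofReal B := by
            gcongr with γ _
            exact hclass γ
        _ = _ := by
            have e9 : ENNReal.ofReal (((L : ℝ) * 2 ^ d) ^ p * B) =
                ENNReal.ofReal ((L : ℝ) * 2 ^ d) ^ p * ENNReal.ofReal B := by
              rw [ENNReal.ofReal_mul (by positivity),
                ENNReal.ofReal_rpow_of_nonneg hG0.le (by linarith)]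
            have e8 : ENNReal.ofReal ((L : ℝ) * 2 ^ d) ^ p =
                ENNReal.ofReal ((L : ℝ) * 2 ^ d) ^ (p - 1) * ENNReal.ofReal ((L : ℝ) * 2 ^ d) := by
              conv_lhs => rw [show p = (p - 1) + 1 by ring]
              rw [ENNReal.rpow_add_of_nonneg _ _ (by linarith) zero_le_one, ENNReal.rpow_one]
            rw [Finset.sum_const, Finset.card_univ, nsmul_eq_mul, hGe, ← mul_assoc, e9, e8]
  -- the copies
  have hk : ∀ k : Fin K, ∫⁻ z, (∑ i, F (k, i) z) ^ p =
      ∫⁻ x, mult (fun i => tb R (R * δ) (b i) (P i) (v i)) x ^ p := by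
    intro k
    have e1 : ∀ z, (∑ i, F (k, i) z) =
        mult (fun i => tb R (R * δ) (b i) (P i) (v i)) (z.1, z.2 - z.1 • fun j => δ * (h k j : ℝ)) :=
      fun z => mult_shear R (R * δ) b P v (fun j => δ * (h k j : ℝ)) z
    simp only [e1]
    exact shear_lint (fun j => δ * (h k j : ℝ))
      (g := fun z => mult (fun i => tb R (R * δ) (b i) (P i) (v i)) z ^ p)
      ((mult_meas fun i => tb_meas _ _ _ _ _).pow_const _)
  calc (K : ℝ≥0∞) * ∫⁻ x, mult (fun i => tb R (R * δ) (b i) (P i) (v i)) x ^ p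
      = ∑ k : Fin K, ∫⁻ z, (∑ i, F (k, i) z) ^ p := by
        rw [Finset.sum_congr rfl (fun k _ => hk k), Finset.sum_const, Finset.card_univ,
          Fintype.card_fin, nsmul_eq_mul]
    _ = ∫⁻ z, ∑ k : Fin K, (∑ i, F (k, i) z) ^ p := by
        rw [lintegral_finsetSum]
        intro k _
        exact (Finset.measurable_fun_sum _ fun i _ => hFm (k, i)).pow_const _
    _ ≤ ∫⁻ z, (∑ x, F x z) ^ p := by
        refine lintegral_mono fun z => ?_
        simp only
        rw [Fintype.sum_prod_type]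
        exact sum_rpow_le' _ _ hp1
    _ ≤ _ := hup

end Pool.Agent.U530.PB
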