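import Pool.Agent.U530.PB.Main
set_option autoImplicit false

/-! Larger exponents: the endpoint and the exponents below it. -/

open MeasureTheory Set Filter Topology Metric
open scoped ENNReal NNReal

namespace Pool.Agent.U530.PB

open Pool.Agent.H810R3.Tub (Vec Space nor box Fb Fb_measurable)
open Pool.Agent.U912.Few (Caps Iq card_le)
open Pool.Agent.Y254.EL (EuF)

variable {d : ℕ}

theorem Fb_eq {ι : Type} [Fintype ι] (N : ℝ) (ω : ι → Vec d) (f : ι → Fin d → Space d)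
    (a : ι → Space d) (y : Space d) : ∃ k : ℕ, k ≤ Fintype.card ι ∧ Fb N ω f a y = (k : ℝ≥0∞) := by
  classical
  refine ⟨(Finset.univ.filter fun i => y ∈ box N (nor (ω i)) (f i) (a i)).card, ?_, ?_⟩
  · rw [← Finset.card_univ]
    exact Finset.card_filter_le _ _
  · unfold Fb
    have e : ∀ i, (box N (nor (ω i)) (f i) (a i)).indicator (fun _ => (1 : ℝ≥0∞)) y =
        if y ∈ box N (nor (ω i)) (f i) (a i) then (1 : ℝ≥0∞) else 0 := by
      intro i
      rw [indicator_apply]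
    rw [Finset.sum_congr rfl (fun i _ => e i), Finset.sum_boole]

/-- The inequality at a larger exponent. -/
theorem HB_up (hd : 1 ≤ d) {p q β σ κ C : ℝ} (hσ : 0 < σ) (hp : 0 < p) (hpq : p ≤ q) (hC : 0 ≤ C)
    (h : HB d p β σ κ C) :
    HB d q ((β * p + d * (q - p)) / q) σ κ ((C ^ p * (2 / σ + 2) ^ (d * (q - p))) ^ (1 / q)) := by
  intro N hN ι _ ω f a hcaps
  have hq : 0 < q := by linarith
  have hN0 : 0 < N := by linarith
  have hqp : 0 ≤ q - p := by linarith
  have h1 := h N hN ι ω f a hcaps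
  unfold Iq at h1 ⊢
  have hm := card_le hσ hN hcaps.1 hcaps.2.1
  set m : ℕ := Fintype.card ι with hmd
  -- left side
  have hl : ∀ y, Fb N ω f a y ^ q ≤ ENNReal.ofReal ((m : ℝ) ^ (q - p)) * Fb N ω f a y ^ p := by
    intro y
    obtain ⟨k, hk, he⟩ := Fb_eq N ω f a y
    rw [he, ← ENNReal.ofReal_natCast, ENNReal.ofReal_rpow_of_nonneg (by positivity) hq.le,
      ENNReal.ofReal_rpow_of_nonneg (by positivity) hp.le, ← ENNReal.ofReal_mul (by positivity)]
    apply ENNReal.ofReal_le_ofReal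
    rcases Nat.eq_zero_or_pos k with h0 | h0
    · rw [h0, Nat.cast_zero, Real.zero_rpow hq.ne', Real.zero_rpow hp.ne', mul_zero]
    · have hk0 : (0 : ℝ) < k := by exact_mod_cast h0
      have hkm : (k : ℝ) ≤ m := by exact_mod_cast hk
      calc (k : ℝ) ^ q = (k : ℝ) ^ (q - p) * (k : ℝ) ^ p := by
            rw [← Real.rpow_add hk0]; congr 1; ring
        _ ≤ (m : ℝ) ^ (q - p) * (k : ℝ) ^ p := by gcongr
  have hr : ∀ y, Fb N ω f (fun _ => 0) y ^ p ≤ Fb N ω f (fun _ => 0) y ^ q := by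
    intro y
    obtain ⟨k, -, he⟩ := Fb_eq N ω f (fun _ => 0) y
    rw [he]
    rcases Nat.eq_zero_or_pos k with h0 | h0
    · rw [h0, Nat.cast_zero, ENNReal.zero_rpow_of_pos hq, ENNReal.zero_rpow_of_pos hp]
    · exact ENNReal.rpow_le_rpow_of_exponent_le (by exact_mod_cast h0) hpq
  have hpos : 0 ≤ C ^ p * (2 / σ + 2) ^ (d * (q - p)) := by positivity
  have hconst : ENNReal.ofReal ((m : ℝ) ^ (q - p)) * ENNReal.ofReal (C * N ^ β) ^ p ≤
      ENNReal.ofReal ((C ^ p * (2 / σ + 2) ^ (d * (q - p))) ^ (1 / q) *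
        N ^ ((β * p + d * (q - p)) / q)) ^ q := by
    rw [ENNReal.ofReal_rpow_of_nonneg (by positivity) hp.le,
      ENNReal.ofReal_rpow_of_nonneg (by positivity) hq.le, ← ENNReal.ofReal_mul (by positivity)]
    apply ENNReal.ofReal_le_ofReal
    have eR : ((C ^ p * (2 / σ + 2) ^ (d * (q - p))) ^ (1 / q) *
        N ^ ((β * p + d * (q - p)) / q)) ^ q =
        C ^ p * (2 / σ + 2) ^ (d * (q - p)) * (N ^ (β * p) * N ^ (d * (q - p))) := by
      rw [Real.mul_rpow (by positivity) (by positivity), ← Real.rpow_mul hpos,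
        ← Real.rpow_mul hN0.le, one_div, inv_mul_cancel₀ hq.ne', Real.rpow_one,
        div_mul_cancel₀ _ hq.ne', Real.rpow_add hN0]
    have eL : (C * N ^ β) ^ p = C ^ p * N ^ (β * p) := by
      rw [Real.mul_rpow hC (by positivity), ← Real.rpow_mul hN0.le]
    rw [eR, eL]
    have hm' : (m : ℝ) ^ (q - p) ≤ (2 / σ + 2) ^ (d * (q - p)) * N ^ (d * (q - p)) := by
      calc (m : ℝ) ^ (q - p) ≤ (((2 / σ + 2) * N) ^ d) ^ (q - p) := by gcongr
        _ = (2 / σ + 2) ^ (d * (q - p)) * N ^ (d * (q - p)) := by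
            rw [← Real.rpow_natCast, ← Real.rpow_mul (by positivity),
              Real.mul_rpow (by positivity) hN0.le]
    calc (m : ℝ) ^ (q - p) * (C ^ p * N ^ (β * p))
        ≤ ((2 / σ + 2) ^ (d * (q - p)) * N ^ (d * (q - p))) * (C ^ p * N ^ (β * p)) := by gcongr
      _ = _ := by ring
  calc ∫⁻ y, Fb N ω f a y ^ q
      ≤ ∫⁻ y, ENNReal.ofReal ((m : ℝ) ^ (q - p)) * Fb N ω f a y ^ p := lintegral_mono hl
    _ = ENNReal.ofReal ((m : ℝ) ^ (q - p)) * ∫⁻ y, Fb N ω f a y ^ p := by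
        rw [lintegral_const_mul' _ _ ENNReal.ofReal_ne_top]
    _ ≤ ENNReal.ofReal ((m : ℝ) ^ (q - p)) * (ENNReal.ofReal (C * N ^ β) ^ p *
          ∫⁻ y, Fb N ω f (fun _ => 0) y ^ p) := by gcongr
    _ = (ENNReal.ofReal ((m : ℝ) ^ (q - p)) * ENNReal.ofReal (C * N ^ β) ^ p) *
          ∫⁻ y, Fb N ω f (fun _ => 0) y ^ p := by rw [mul_assoc]
    _ ≤ ENNReal.ofReal ((C ^ p * (2 / σ + 2) ^ (d * (q - p))) ^ (1 / q) *
        N ^ ((β * p + d * (q - p)) / q)) ^ q * ∫⁻ y, Fb N ω f (fun _ => 0) y ^ q :=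
        mul_le_mul' hconst (lintegral_mono hr)

/-- From boxes to tubes, any exponent. -/
theorem euF_of_HB' (hd : 2 ≤ d) {p q β C : ℝ} (hp : 1 ≤ p) (hβ : 0 ≤ β) (hC : 0 ≤ C)
    (h : HB d p β (1 / (8 * d)) 1 C)
    (hq : max p (((d : ℝ) + 1) / d) + 7 * ((d : ℝ) + 1) * (β * p + |d * (p - 1) - 1|) < q) :
    ∃ C : ℝ, 0 < C ∧ EuF d q C := by
  have hdr : (2 : ℝ) ≤ d := by exact_mod_cast hd
  have hd0 : (0 : ℝ) < d := by linarith
  have e1 : ((d : ℝ) + 1) / d = 1 + 1 / d := by field_simp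
  rw [e1] at hq
  rcases lt_or_ge (1 + 1 / (d : ℝ)) p with h1 | h1
  · refine euF_of_HB hd h1 hβ hC h ?_
    rw [max_eq_left h1.le] at hq
    have h2 : d * (p - 1) - 1 ≤ |d * (p - 1) - 1| := le_abs_self _
    have h3 : 7 * ((d : ℝ) + 1) * (β * p + (d * (p - 1) - 1)) ≤
        7 * ((d : ℝ) + 1) * (β * p + |d * (p - 1) - 1|) := by gcongr
    linarith
  · rw [max_eq_right h1] at hq
    have hdp : d * (p - 1) ≤ 1 := by
      have h2 : (d : ℝ) * (p - 1) ≤ d * (1 / d) := by
        apply mul_le_mul_of_nonneg_left _ hd0.le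
        linarith
      have h3 : (d : ℝ) * (1 / d) = 1 := by field_simp
      linarith
    have habs : |d * (p - 1) - 1| = 1 - d * (p - 1) := by
      rw [abs_of_nonpos (by linarith)]
      ring
    rw [habs] at hq
    set x : ℝ := q - (1 + 1 / (d : ℝ)) - 7 * ((d : ℝ) + 1) * (β * p + (1 - d * (p - 1))) with hx
    have hx0 : 0 < x := by rw [hx]; linarith
    set s : ℝ := x / (2 * (1 + 14 * ((d : ℝ) + 1))) with hs
    have hs0 : 0 < s := by positivity
    have hsx : s * (2 * (1 + 14 * ((d : ℝ) + 1))) = x := by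
      rw [hs]
      field_simp
    set r : ℝ := 1 + 1 / (d : ℝ) + s / d with hr
    have hsd : 0 < s / d := by positivity
    have hsd' : s / d ≤ s := div_le_self hs0.le (by linarith)
    have hpr : p ≤ r := by rw [hr]; linarith
    have hr0 : 0 < r := by linarith
    have h4 := HB_up (by omega) (by positivity) (by linarith) hpr hC h
    have hβ' : 0 ≤ (β * p + d * (r - p)) / r := by
      have : 0 ≤ r - p := by linarith
      positivity
    have hσ0 : (0 : ℝ) < 1 / (8 * d) := by positivity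
    refine euF_of_HB hd (by rw [hr]; linarith) hβ' (by positivity) h4 ?_
    have e2 : (β * p + d * (r - p)) / r * r = β * p + d * (r - p) := by field_simp
    have e3 : d * (r - 1) = 1 + s := by rw [hr]; field_simp; ring
    have e4 : β * p + d * (r - p) + (d * (r - 1) - 1) = β * p + (1 - d * (p - 1)) + 2 * s := by
      have : (d : ℝ) * (r - p) = d * (r - 1) - d * (p - 1) := by ring
      rw [this, e3]
      ring
    rw [e2, e4]
    have e5 : 7 * ((d : ℝ) + 1) * (β * p + (1 - d * (p - 1)) + 2 * s) =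
        7 * ((d : ℝ) + 1) * (β * p + (1 - d * (p - 1))) + 14 * ((d : ℝ) + 1) * s := by ring
    rw [e5]
    have e6 : s + 14 * ((d : ℝ) + 1) * s = x / 2 := by
      rw [← hsx]
      ring
    have e7 : r + (7 * ((d : ℝ) + 1) * (β * p + (1 - d * (p - 1))) + 14 * ((d : ℝ) + 1) * s) ≤
        (1 + 1 / (d : ℝ)) + 7 * ((d : ℝ) + 1) * (β * p + (1 - d * (p - 1))) + x / 2 := by
      rw [hr]
      linarith
    refine lt_of_le_of_lt e7 ?_
    have : q = x + (1 + 1 / (d : ℝ)) + 7 * ((d : ℝ) + 1) * (β * p + (1 - d * (p - 1))) := by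
      rw [hx]; ring
    linarith

end Pool.Agent.U530.PB
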